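import Pool.Agent.H90.LES_Res
import Pool.Agent.H70.LES_Profile
import Pool.Agent.H70.LES_Block
import Pool.Agent.H93.LES_small
import Pool.Agent.H93.LES_antidiv
import Pool.Agent.H21.LES.SelfInt

/-! Module L6 `one_dir` of MP_544ca6_an. -/

open MeasureTheory Set Filter Topology
open scoped ContDiff ENNReal
open H36.MHD

noncomputable section

namespace H37.LES

variable (P : Prob)

/-- total size of the given field -/
def Prob.Mf (V : Fin 3 → X → ℝ) (z : X) : ℝ := 1 + ∑ j, |P.W V j z| + ∑ i, ∑ j, |P.G V i j z|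

lemma Mf_memLp {V : Fin 3 → X → ℝ} (hV : P.IsPert V) : MemLp (P.Mf V) 2 P.μ := by
  have h1 : MemLp (fun z => ∑ j, |P.W V j z|) 2 P.μ :=
    memLp_finsetSum Finset.univ (f := fun j z => |P.W V j z|) fun j _ => (memLp_W P hV j).abs
  have h2 : MemLp (fun z => ∑ i, ∑ j, |P.G V i j z|) 2 P.μ :=
    memLp_finsetSum Finset.univ (f := fun i z => ∑ j, |P.G V i j z|) fun i _ =>
      memLp_finsetSum Finset.univ (f := fun j z => |P.G V i j z|) fun j _ => (memLp_G P hV i j).abs
  have h0 : MemLp (fun _ : X => (1:ℝ)) 2 P.μ := memLp_const 1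
  exact (h0.add h1).add h2

lemma Mf_one (V : Fin 3 → X → ℝ) (z : X) : 1 ≤ P.Mf V z := by
  unfold Prob.Mf
  have h1 : 0 ≤ ∑ j, |P.W V j z| := Finset.sum_nonneg fun _ _ => abs_nonneg _
  have h2 : 0 ≤ ∑ i, ∑ j, |P.G V i j z| :=
    Finset.sum_nonneg fun _ _ => Finset.sum_nonneg fun _ _ => abs_nonneg _
  linarith

lemma W_le_Mf (V : Fin 3 → X → ℝ) (j : Fin 3) (z : X) : |P.W V j z| ≤ P.Mf V z := by
  unfold Prob.Mf
  have h1 : |P.W V j z| ≤ ∑ j, |P.W V j z| :=
    Finset.single_le_sum (f := fun j => |P.W V j z|) (fun _ _ => abs_nonneg _) (Finset.mem_univ j)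
  have h2 : 0 ≤ ∑ i, ∑ j, |P.G V i j z| :=
    Finset.sum_nonneg fun _ _ => Finset.sum_nonneg fun _ _ => abs_nonneg _
  linarith

lemma G_le_Mf (V : Fin 3 → X → ℝ) (i j : Fin 3) (z : X) : |P.G V i j z| ≤ P.Mf V z := by
  unfold Prob.Mf
  have h1 : 0 ≤ ∑ j, |P.W V j z| := Finset.sum_nonneg fun _ _ => abs_nonneg _
  have h2 : |P.G V i j z| ≤ ∑ j, |P.G V i j z| :=
    Finset.single_le_sum (f := fun j => |P.G V i j z|) (fun _ _ => abs_nonneg _)
      (Finset.mem_univ j)
  have h3 : ∑ j, |P.G V i j z| ≤ ∑ i, ∑ j, |P.G V i j z| :=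
    Finset.single_le_sum (f := fun i => ∑ j, |P.G V i j z|)
      (fun _ _ => Finset.sum_nonneg fun _ _ => abs_nonneg _) (Finset.mem_univ i)
  linarith

lemma hv_bound {V v : Fin 3 → X → ℝ} {z : X} {c D E0 C : ℝ} (hc : 0 ≤ c) (hcC : c ≤ C)
    (hD : 0 ≤ D) (hDE : D ≤ E0)
    (h1 : ∀ i, |v i z| ≤ c) (h2 : ∀ i, |dt (v i) z| ≤ c) (h3 : ∀ i j, |dx j (v i) z| ≤ D + c)
    (i : Fin 3) :
    |P.hv V v i z| ≤ 3 * (P.Mf V z * D) + c * (7 + 3 * (E0 + C)) * P.Mf V z := by
  have hM := Mf_one P V z
  have hM0 : 0 ≤ P.Mf V z := by linarith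
  have ht : ∀ j, |P.W V j z * dx j (v i) z + v j z * P.G V i j z + v j z * dx j (v i) z|
      ≤ P.Mf V z * D + c * (2 + (E0 + C)) * P.Mf V z := by
    intro j
    have a1 : |P.W V j z * dx j (v i) z| ≤ P.Mf V z * (D + c) := by
      rw [abs_mul]
      exact mul_le_mul (W_le_Mf P V j z) (h3 i j) (abs_nonneg _) hM0
    have a2 : |v j z * P.G V i j z| ≤ c * P.Mf V z := by
      rw [abs_mul]
      exact mul_le_mul (h1 j) (G_le_Mf P V i j z) (abs_nonneg _) hc
    have a3 : |v j z * dx j (v i) z| ≤ c * (E0 + C) := by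
      rw [abs_mul]
      exact mul_le_mul (h1 j) ((h3 i j).trans (by linarith)) (abs_nonneg _) hc
    have a4 : c * (E0 + C) ≤ c * (E0 + C) * P.Mf V z :=
      le_mul_of_one_le_right (mul_nonneg hc (by linarith)) hM
    have a5 := abs_add_le (P.W V j z * dx j (v i) z + v j z * P.G V i j z) (v j z * dx j (v i) z)
    have a6 := abs_add_le (P.W V j z * dx j (v i) z) (v j z * P.G V i j z)
    nlinarith
  have hs : |∑ j, (P.W V j z * dx j (v i) z + v j z * P.G V i j z + v j z * dx j (v i) z)|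
      ≤ 3 * (P.Mf V z * D + c * (2 + (E0 + C)) * P.Mf V z) := by
    refine (Finset.abs_sum_le_sum_abs _ _).trans ((Finset.sum_le_sum fun j _ => ht j).trans ?_)
    rw [Finset.sum_const, Finset.card_univ, Fintype.card_fin, nsmul_eq_mul]
    norm_num
  have h5 : c ≤ c * P.Mf V z := le_mul_of_one_le_right hc hM
  unfold Prob.hv
  refine (abs_add_le _ _).trans ?_
  have := h2 i
  nlinarith

lemma rv_bound {V v : Fin 3 → X → ℝ} {z : X} {c D E0 C : ℝ} (hc : 0 ≤ c) (hcC : c ≤ C)
    (hD : 0 ≤ D) (hDE : D ≤ E0) {Y : Fin 3 → ℝ} {l : Fin 3} (hY : ∀ i, |Y i| ≤ D)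
    (h3 : ∀ i j, |dx j (v i) z - if j = l then Y i else 0| ≤ c) (i j : Fin 3) :
    |P.rv V v i j z + P.al * (Y i * Y j)| ≤ (2 * |P.nu| + 6 * P.al) * (P.Mf V z * D)
      + c * (2 * |P.nu| + 6 * P.al + 3 * P.al * (2 * E0 + C)) * P.Mf V z := by
  have hM := Mf_one P V z
  have hM0 : 0 ≤ P.Mf V z := by linarith
  have hal := P.hal.le
  have hZ : ∀ i j, |if j = l then Y i else 0| ≤ D := by
    intro i j
    split_ifs
    · exact hY i
    · simpa using hD
  have hX : ∀ i j, |dx j (v i) z| ≤ D + c := by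
    intro i j
    have := abs_add_le (if j = l then Y i else 0) (dx j (v i) z - if j = l then Y i else 0)
    rw [add_sub_cancel] at this
    linarith [hZ i j, h3 i j]
  have hsum : ∑ m, (if m = l then Y i else 0) * (if m = l then Y j else 0) = Y i * Y j := by
    simp
  have heq : P.rv V v i j z + P.al * (Y i * Y j) = P.nu * (dx j (v i) z + dx i (v j) z)
      - P.al * ∑ m, (P.G V i m z * dx m (v j) z + dx m (v i) z * P.G V j m z
        + (dx m (v i) z * dx m (v j) z
          - (if m = l then Y i else 0) * (if m = l then Y j else 0))) := by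
    unfold Prob.rv
    rw [← hsum]
    simp only [Finset.sum_add_distrib, Finset.sum_sub_distrib]
    ring
  have ht : ∀ m, |P.G V i m z * dx m (v j) z + dx m (v i) z * P.G V j m z
        + (dx m (v i) z * dx m (v j) z
          - (if m = l then Y i else 0) * (if m = l then Y j else 0))|
      ≤ 2 * (P.Mf V z * (D + c)) + c * (2 * E0 + C) := by
    intro m
    have a1 : |P.G V i m z * dx m (v j) z| ≤ P.Mf V z * (D + c) := by
      rw [abs_mul]
      exact mul_le_mul (G_le_Mf P V i m z) (hX j m) (abs_nonneg _) hM0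
    have a2 : |dx m (v i) z * P.G V j m z| ≤ P.Mf V z * (D + c) := by
      rw [abs_mul, mul_comm]
      exact mul_le_mul (G_le_Mf P V j m z) (hX i m) (abs_nonneg _) hM0
    have a3 : |dx m (v i) z * dx m (v j) z
          - (if m = l then Y i else 0) * (if m = l then Y j else 0)| ≤ c * (2 * E0 + C) := by
      have e : dx m (v i) z * dx m (v j) z
          - (if m = l then Y i else 0) * (if m = l then Y j else 0)
          = (dx m (v i) z - if m = l then Y i else 0) * dx m (v j) z
            + (if m = l then Y i else 0) * (dx m (v j) z - if m = l then Y j else 0) := by ring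
      rw [e]
      refine (abs_add_le _ _).trans ?_
      rw [abs_mul, abs_mul]
      have b1 := mul_le_mul (h3 i m) (hX j m) (abs_nonneg _) hc
      have b2 := mul_le_mul (hZ i m) (h3 j m) (abs_nonneg _) hD
      nlinarith
    have a5 := abs_add_le (P.G V i m z * dx m (v j) z + dx m (v i) z * P.G V j m z)
      (dx m (v i) z * dx m (v j) z - (if m = l then Y i else 0) * (if m = l then Y j else 0))
    have a6 := abs_add_le (P.G V i m z * dx m (v j) z) (dx m (v i) z * P.G V j m z)
    linarith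
  have hs : |∑ m, (P.G V i m z * dx m (v j) z + dx m (v i) z * P.G V j m z
        + (dx m (v i) z * dx m (v j) z
          - (if m = l then Y i else 0) * (if m = l then Y j else 0)))|
      ≤ 3 * (2 * (P.Mf V z * (D + c)) + c * (2 * E0 + C)) := by
    refine (Finset.abs_sum_le_sum_abs _ _).trans ((Finset.sum_le_sum fun j _ => ht j).trans ?_)
    rw [Finset.sum_const, Finset.card_univ, Fintype.card_fin, nsmul_eq_mul]
    norm_num
  rw [heq]
  refine (abs_sub _ _).trans ?_
  rw [abs_mul, abs_mul, abs_of_pos P.hal]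
  have h4 : |dx j (v i) z + dx i (v j) z| ≤ 2 * (P.Mf V z * (D + c)) := by
    refine (abs_add_le _ _).trans ?_
    have h5 : D + c ≤ P.Mf V z * (D + c) := le_mul_of_one_le_left (by linarith) hM
    linarith [hX i j, hX j i]
  have h6 := mul_le_mul_of_nonneg_left h4 (abs_nonneg P.nu)
  have h7 := mul_le_mul_of_nonneg_left hs hal
  have h8 : P.al * (3 * (c * (2 * E0 + C))) ≤ P.al * (3 * (c * (2 * E0 + C))) * P.Mf V z :=
    le_mul_of_one_le_right (mul_nonneg hal (mul_nonneg (by norm_num) (mul_nonneg hc (by linarith)))) hM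
  nlinarith

lemma per_bound {g : ℝ → ℝ} (hg : Continuous g) (hper : ∀ s, g (s + 1) = g s) :
    ∃ C, 0 ≤ C ∧ ∀ s, |g s| ≤ C := by
  obtain ⟨C, hC⟩ := isCompact_Icc.exists_bound_of_continuousOn (s := Icc (0:ℝ) 1) hg.continuousOn
  refine ⟨max C 0, le_max_right _ _, fun s => ?_⟩
  have hp : Function.Periodic g 1 := hper
  obtain ⟨y, hy, he⟩ := hp.exists_mem_Ico₀ one_pos s
  rw [he]
  exact (hC y ⟨hy.1, hy.2.le⟩).trans (le_max_left _ _)

lemma per_deriv {g : ℝ → ℝ} (hper : ∀ s, g (s + 1) = g s) : ∀ s, deriv g (s + 1) = deriv g s := by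
  intro s
  rw [← deriv_comp_add_const]
  congr 1
  exact funext hper

/-- L¹ norm of a sum controlled pointwise. -/
lemma int_abs_le {F M N : X → ℝ} (hF : Integrable F P.μ) (hM : Integrable M P.μ)
    (hN : Integrable N P.μ) {α β : ℝ} (h : ∀ z, |F z| ≤ α * M z + β * N z) :
    ∫ z, |F z| ∂P.μ ≤ α * (∫ z, M z ∂P.μ) + β * ∫ z, N z ∂P.μ := by
  have i1 : Integrable (fun z => α * M z) P.μ := hM.const_mul α
  have i2 : Integrable (fun z => β * N z) P.μ := hN.const_mul β
  calc ∫ z, |F z| ∂P.μ ≤ ∫ z, (α * M z + β * N z) ∂P.μ :=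
        integral_mono hF.abs (i1.add i2) h
    _ = _ := by rw [integral_add i1 i2, integral_const_mul, integral_const_mul]

lemma int_comb {f1 f2 f3 f4 : X → ℝ} (α : ℝ) (i1 : Integrable f1 P.μ) (i2 : Integrable f2 P.μ)
    (i3 : Integrable f3 P.μ) (i4 : Integrable f4 P.μ) :
    ∫ z, (f1 z + α * f2 z - α * f3 z + f4 z) ∂P.μ
      = (∫ z, f1 z ∂P.μ) + α * (∫ z, f2 z ∂P.μ) - α * (∫ z, f3 z ∂P.μ) + ∫ z, f4 z ∂P.μ := by
  have k2 : Integrable (fun z => α * f2 z) P.μ := i2.const_mul α
  have k3 : Integrable (fun z => α * f3 z) P.μ := i3.const_mul α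
  have k12 : Integrable (fun z => f1 z + α * f2 z) P.μ := i1.add k2
  have k123 : Integrable (fun z => f1 z + α * f2 z - α * f3 z) P.μ := k12.sub k3
  rw [integral_add k123 i4, integral_sub k12 k3, integral_add i1 k2, integral_const_mul,
    integral_const_mul]

theorem one_dir (P : Prob) (V : Fin 3 → X → ℝ) (hV : P.IsPert V) (a : X → ℝ)
    (ha : ContDiff ℝ ∞ a) (hac : HasCompactSupport a) (has : tsupport a ⊆ cyl P.Ω P.T)
    (l : Fin 3) (b : V3) (hbl : b l = 0) (η : ℝ) (hη : 0 < η) :
    ∃ V' R', P.IsPert V' ∧ P.IsErr R' ∧ (∀ i z, |V' i z - V i z| ≤ η) ∧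
      (∑ i, ∑ j, ∫ z, (dx j (V' i) z - dx j (V i) z) ^ 2 ∂P.μ
        ≤ 2 * (∑ i, b i ^ 2) * (∫ z, (a z) ^ 2 ∂P.μ) + η) ∧
      P.L1 R' ≤ η ∧
      ∀ φ, P.IsTest φ → P.Res V' φ = P.Res V φ
        - P.al * (∫ z, (a z) ^ 2 * (∑ i, ∑ j, b i * b j * dx j (φ i) z) ∂P.μ) + P.Bd R' φ := by
  have hal := P.hal
  obtain ⟨A, hA0, hA⟩ := cs_bound ha.continuous hac
  obtain ⟨Cad, hCad0, had⟩ := antidiv P
  -- size of b
  set B : ℝ := ∑ i, |b i| with hB
  have hB0 : 0 ≤ B := Finset.sum_nonneg fun _ _ => abs_nonneg _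
  have hbB : ∀ i, |b i| ≤ B := fun i =>
    Finset.single_le_sum (f := fun j => |b j|) (fun _ _ => abs_nonneg _) (Finset.mem_univ i)
  set M : X → ℝ := P.Mf V with hMdef
  have hM2 : MemLp M 2 P.μ := Mf_memLp P hV
  have hMint : Integrable M P.μ := memLp_int P hM2
  have hM1 : ∀ z, 1 ≤ M z := Mf_one P V
  set κ : ℝ := 9 * ((2 * |P.nu| + 6 * P.al) * B) + Cad * (9 * B) with hκ
  have hκ0 : 0 ≤ κ := by positivity
  set η1 : ℝ := η / (2 * (κ + 1)) with hη1
  have hη10 : 0 < η1 := by positivity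
  have hκη : κ * η1 ≤ η / 2 := by
    rw [hη1, mul_div_assoc', div_le_div_iff₀ (by positivity) (by norm_num)]
    nlinarith
  obtain ⟨ε, hε, hsmall⟩ := small_product P M hM2 A η1 hη10
  obtain ⟨Φ, hΦ, hper, hone, hsm⟩ := exists_profile ε hε
  obtain ⟨C, hC0, hblock⟩ := block_props a ha hac Φ hΦ hper l b hbl
  obtain ⟨C', hC'0, hself⟩ := self_interaction P a ha hac has Φ hΦ hper hone l b hbl
  set Ψ : ℝ → ℝ := deriv (deriv Φ) with hΨ
  have hΨc : Continuous Ψ := by
    have h1 : ContDiff ℝ ∞ (deriv Φ) := ((contDiff_infty_iff_deriv (f := Φ)).1 hΦ).2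
    exact ((contDiff_infty_iff_deriv (f := deriv Φ)).1 h1).2.continuous
  have hΨper : ∀ s, Ψ (s + 1) = Ψ s := per_deriv (per_deriv hper)
  obtain ⟨D1, hD10, hD1⟩ := per_bound hΨc hΨper
  set E0 : ℝ := B * (A * D1) with hE0
  have hE00 : 0 ≤ E0 := by positivity
  set μM : ℝ := ∫ z, M z ∂P.μ with hμM
  have hμM0 : 0 ≤ μM := integral_nonneg fun z => zero_le_one.trans (hM1 z)
  set μ1 : ℝ := ∫ z, (1:ℝ) ∂P.μ with hμ1
  have hμ10 : 0 ≤ μ1 := integral_nonneg fun z => zero_le_one
  set K2 : ℝ := 7 + 3 * (E0 + C) with hK2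
  set K3 : ℝ := 2 * |P.nu| + 6 * P.al + 3 * P.al * (2 * E0 + C) with hK3
  have hK20 : 0 ≤ K2 := by positivity
  have hK30 : 0 ≤ K3 := by positivity
  set B2 : ℝ := ∑ i, b i ^ 2 with hB2
  have hB20 : 0 ≤ B2 := Finset.sum_nonneg fun _ _ => sq_nonneg _
  set Z : ℝ := 9 * ((C * K3 + P.al * C') * μM) + Cad * (3 * ((C * K2 + P.al * C') * μM))
    + C + (2 * B2 * C' + 18 * C ^ 2 * μ1) with hZ
  have hZ0 : 0 ≤ Z := by positivity
  set lam : ℝ := 1 + 2 * Z / η with hlam
  have hlam1 : 1 ≤ lam := by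
    rw [hlam]; have : 0 ≤ 2 * Z / η := by positivity
    linarith
  have hlam0 : 0 < lam := by linarith
  have hZlam : Z / lam ≤ η / 2 := by
    rw [div_le_div_iff₀ hlam0 (by norm_num), hlam]
    have : η * (1 + 2 * Z / η) = η + 2 * Z := by field_simp
    rw [this]; linarith
  -- a bound by Z/lam of every nonneg constant ≤ Z
  have hdiv : ∀ x, x ≤ Z → x / lam ≤ η / 2 := fun x hx =>
    (div_le_div_of_nonneg_right hx hlam0.le).trans hZlam
  obtain ⟨hbs, hbt, hbd, hb0, hb1, hb2⟩ := hblock lam hlam1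
  obtain ⟨hs1, h, Q, hhc, hQc, hQs, hhb, hQb, hhQ⟩ := hself lam hlam1
  obtain ⟨hsmi, hsmb⟩ := hsmall a ha.continuous hA Ψ hΨc hΨper hone hsm lam hlam1 l
  set v : Fin 3 → X → ℝ := block a Φ l b lam with hvdef
  have hv : P.IsPert v := ⟨hbs, fun i => hac.mono' ((subset_tsupport _).trans (hbt i)),
    fun i => (hbt i).trans has, hbd⟩
  set c : ℝ := C / lam with hc
  have hc0 : 0 ≤ c := by positivity
  have hcC : c ≤ C := div_le_self hC0 hlam1
  -- main size
  set D : X → ℝ := fun z => B * (|a z| * |Ψ (lam * z.2 l)|) with hD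
  have hD0 : ∀ z, 0 ≤ D z := fun z => by positivity
  have hDE : ∀ z, D z ≤ E0 := fun z =>
    mul_le_mul_of_nonneg_left (mul_le_mul (hA z) (hD1 _) (abs_nonneg _) hA0) hB0
  set Y : X → Fin 3 → ℝ := fun z i => a z * Ψ (lam * z.2 l) * b i with hY
  have hYD : ∀ z i, |Y z i| ≤ D z := by
    intro z i
    simp only [hY, hD, abs_mul]
    rw [mul_comm]
    exact mul_le_mul_of_nonneg_right (hbB i) (by positivity)
  have hX : ∀ z i j, |dx j (v i) z| ≤ D z + c := by
    intro z i j
    have h1 := abs_add_le (if j = l then Y z i else 0) (dx j (v i) z - if j = l then Y z i else 0)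
    rw [add_sub_cancel] at h1
    have h2 : |if j = l then Y z i else 0| ≤ D z := by
      split_ifs
      · exact hYD z i
      · simpa using hD0 z
    linarith [hb2 i j z]
  have hMD : ∀ z, M z * D z = B * (|M z| * |a z| * |Ψ (lam * z.2 l)|) := by
    intro z
    rw [abs_of_nonneg (zero_le_one.trans (hM1 z))]
    simp only [hD]; ring
  have hMDi : Integrable (fun z => M z * D z) P.μ := by
    simp_rw [hMD]; exact hsmi.const_mul B
  have hMDb : ∫ z, M z * D z ∂P.μ ≤ B * η1 := by
    simp_rw [hMD]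
    rw [integral_const_mul]
    exact mul_le_mul_of_nonneg_left hsmb hB0
  -- integrability
  have hhi : ∀ i, Integrable (h i) P.μ := by
    intro i
    exact Integrable.of_bound (hhc i).aestronglyMeasurable (C' / lam)
      (Eventually.of_forall fun z => hhb i z)
  have hQi : ∀ i j, Integrable (Q i j) P.μ := by
    intro i j
    exact Integrable.of_bound (hQc i j).aestronglyMeasurable (C' / lam)
      (Eventually.of_forall fun z => hQb i j z)
  set Hv : Fin 3 → X → ℝ := fun i z => P.hv V v i z - P.al * h i z with hHv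
  have hHvi : ∀ i, Integrable (Hv i) P.μ := fun i => (hv_int P hV hv i).sub ((hhi i).const_mul _)
  obtain ⟨R0, hR0, hR0b, hR0e⟩ := had Hv hHvi
  -- estimates
  have hC'lam : 0 ≤ C' / lam := by positivity
  have hHvb : ∀ i z, |Hv i z| ≤ 3 * (M z * D z) + (c * K2 + P.al * (C' / lam)) * M z := by
    intro i z
    have h1 := hv_bound P (V := V) (v := v) (z := z) (c := c) (D := D z) (E0 := E0) (C := C) hc0 hcC
      (hD0 z) (hDE z) (fun i => hb0 i z) (fun i => hb1 i z) (fun i j => hX z i j) i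
    have h2 : |P.al * h i z| ≤ P.al * (C' / lam) * M z := by
      rw [abs_mul, abs_of_pos hal]
      refine (mul_le_mul_of_nonneg_left (hhb i z) hal.le).trans ?_
      exact le_mul_of_one_le_right (by positivity) (hM1 z)
    refine (abs_sub _ _).trans ?_
    refine (add_le_add h1 h2).trans (le_of_eq ?_)
    simp only [hK2, hMdef]; ring
  have hHvL : ∀ i, ∫ z, |Hv i z| ∂P.μ ≤ 3 * (B * η1) + (c * K2 + P.al * (C' / lam)) * μM := by
    intro i
    refine (int_abs_le P (hHvi i) hMDi hMint (hHvb i)).trans ?_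
    exact add_le_add (mul_le_mul_of_nonneg_left hMDb (by norm_num)) le_rfl
  set R1 : Fin 3 → Fin 3 → X → ℝ := fun i j z =>
    P.rv V v i j z + P.al * (Y z i * Y z j) - P.al * Q i j z with hR1
  have hYi : ∀ i j, Integrable (fun z => Y z i * Y z j) P.μ := by
    intro i j
    have hc1 : Continuous (fun z : X => (a z * Ψ (lam * z.2 l) * b i) * (Ψ (lam * z.2 l) * b j)) := by
      have : Continuous (fun z : X => Ψ (lam * z.2 l)) := hΨc.comp (by fun_prop)
      have hac' := ha.continuous
      fun_prop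
    have := int_mul_cs P (int_cs P (g := fun z => a z * (Ψ (lam * z.2 l) * b i))
      (by
        have : Continuous (fun z : X => Ψ (lam * z.2 l)) := hΨc.comp (by fun_prop)
        have hac' := ha.continuous
        fun_prop) hac.mul_right) (g := fun z => a z * (Ψ (lam * z.2 l) * b j)) (by
        have : Continuous (fun z : X => Ψ (lam * z.2 l)) := hΨc.comp (by fun_prop)
        have hac' := ha.continuous
        fun_prop) hac.mul_right
    refine this.congr (Eventually.of_forall fun z => ?_)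
    simp only [hY]; ring
  have hR1i : ∀ i j, Integrable (R1 i j) P.μ := fun i j =>
    ((rv_int P hV hv i j).add ((hYi i j).const_mul _)).sub ((hQi i j).const_mul _)
  have hR1b : ∀ i j z, |R1 i j z| ≤ (2 * |P.nu| + 6 * P.al) * (M z * D z)
      + (c * K3 + P.al * (C' / lam)) * M z := by
    intro i j z
    have h1 := rv_bound P (V := V) (v := v) (z := z) (c := c) (D := D z) (E0 := E0) (C := C) hc0 hcC
      (hD0 z) (hDE z) (Y := Y z) (l := l) (hYD z) (fun i j => by
        have := hb2 i j z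
        simpa only [hY] using this) i j
    have h2 : |P.al * Q i j z| ≤ P.al * (C' / lam) * M z := by
      rw [abs_mul, abs_of_pos hal]
      refine (mul_le_mul_of_nonneg_left (hQb i j z) hal.le).trans ?_
      exact le_mul_of_one_le_right (by positivity) (hM1 z)
    refine (abs_sub _ _).trans ?_
    refine (add_le_add h1 h2).trans (le_of_eq ?_)
    simp only [hK3, hMdef]; ring
  have hR1L : ∀ i j, ∫ z, |R1 i j z| ∂P.μ ≤ (2 * |P.nu| + 6 * P.al) * (B * η1)
      + (c * K3 + P.al * (C' / lam)) * μM := by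
    intro i j
    refine (int_abs_le P (hR1i i j) hMDi hMint (hR1b i j)).trans ?_
    exact add_le_add (mul_le_mul_of_nonneg_left hMDb (by positivity)) le_rfl
  refine ⟨fun i z => V i z + v i z, fun i j z => R1 i j z + R0 i j z, ?_, ?_, ?_, ?_, ?_, ?_⟩
  · -- IsPert
    refine ⟨fun i => (hV.smooth i).add (hv.smooth i), fun i => (hV.compact i).add (hv.compact i),
      fun i => ?_, fun z => ?_⟩
    · exact (tsupport_add _ _).trans (union_subset (hV.supp i) (hv.supp i))
    · simp only [dx_add' (hV.smooth _) (hv.smooth _), Finset.sum_add_distrib, hV.div z, hv.div z,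
        add_zero]
  · -- IsErr
    refine ⟨fun i j => (hR1i i j).add (hR0.int i j), fun i j z => ?_⟩
    simp only [hR1, Prob.rv, hR0.symm i j z, hQs i j z]
    congr 1
    congr 1
    congr 1
    · congr 1
      · ring
      · congr 1
        exact Finset.sum_congr rfl fun m _ => by ring
    · ring
  · -- uniform bound
    intro i z
    rw [add_sub_cancel_left]
    refine (hb0 i z).trans ((hdiv C ?_).trans (by linarith))
    rw [hZ]
    have h1 : 0 ≤ 9 * ((C * K3 + P.al * C') * μM) := by positivity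
    have h2 : 0 ≤ Cad * (3 * ((C * K2 + P.al * C') * μM)) := by positivity
    have h3 : 0 ≤ (2 * B2 * C' + 18 * C ^ 2 * μ1) := by positivity
    linarith
  · -- gradient
    have hdd : ∀ i j z, dx j (fun z => V i z + v i z) z - dx j (V i) z = dx j (v i) z := by
      intro i j z
      rw [dx_add' (hV.smooth i) (hv.smooth i)]; ring
    simp only [hdd]
    have hYsq : ∀ i, Integrable (fun z => Y z i ^ 2) P.μ := by
      intro i
      refine (hYi i i).congr (Eventually.of_forall fun z => ?_)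
      simp only [sq]
    have h1i : Integrable (fun _ : X => (1:ℝ)) P.μ := integrable_const 1
    have hv2i : ∀ i j, Integrable (fun z => dx j (v i) z ^ 2) P.μ := by
      intro i j
      have := int_mul_cs P (int_cs P (smooth_dx (hv.smooth i) j).continuous
        (cs_dx (hv.compact i) j)) (smooth_dx (hv.smooth i) j).continuous (cs_dx (hv.compact i) j)
      refine this.congr (Eventually.of_forall fun z => ?_)
      simp only [sq]
    have hpt : ∀ i j, ∫ z, dx j (v i) z ^ 2 ∂P.μ
        ≤ (if j = l then 2 * ∫ z, Y z i ^ 2 ∂P.μ else 0) + 2 * c ^ 2 * μ1 := by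
      intro i j
      by_cases hj : j = l
      · rw [if_pos hj]
        have hle : ∀ z, dx j (v i) z ^ 2 ≤ 2 * Y z i ^ 2 + 2 * c ^ 2 * 1 := by
          intro z
          have h1 := hb2 i j z
          rw [if_pos hj] at h1
          have h2 : (dx j (v i) z - Y z i) ^ 2 ≤ c ^ 2 := by
            rw [← sq_abs]
            exact pow_le_pow_left₀ (abs_nonneg _) h1 2
          nlinarith [sq_nonneg (dx j (v i) z - 2 * Y z i)]
        calc ∫ z, dx j (v i) z ^ 2 ∂P.μ ≤ ∫ z, (2 * Y z i ^ 2 + 2 * c ^ 2 * 1) ∂P.μ :=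
              integral_mono (hv2i i j) (((hYsq i).const_mul 2).add (h1i.const_mul _)) hle
          _ = _ := by
              rw [integral_add ((hYsq i).const_mul 2) (h1i.const_mul _), integral_const_mul,
                integral_const_mul]
      · rw [if_neg hj, zero_add]
        have hle : ∀ z, dx j (v i) z ^ 2 ≤ 2 * c ^ 2 * 1 := by
          intro z
          have h1 := hb2 i j z
          rw [if_neg hj, sub_zero] at h1
          have h2 : (dx j (v i) z) ^ 2 ≤ c ^ 2 := by
            rw [← sq_abs]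
            exact pow_le_pow_left₀ (abs_nonneg _) h1 2
          nlinarith
        calc ∫ z, dx j (v i) z ^ 2 ∂P.μ ≤ ∫ z, (2 * c ^ 2 * 1) ∂P.μ :=
              integral_mono (hv2i i j) (h1i.const_mul _) hle
          _ = _ := by rw [integral_const_mul]
    have ha2i : Integrable (fun z => a z ^ 2) P.μ := by
      have := int_mul_cs P (int_cs P ha.continuous hac) ha.continuous hac
      refine this.congr (Eventually.of_forall fun z => ?_)
      simp only [sq]
    have haΨi : Integrable (fun z : X => (a z) ^ 2 * ((Ψ (lam * z.2 l)) ^ 2 - 1)) P.μ := by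
      have hcc : Continuous (fun z : X => Ψ (lam * z.2 l)) := hΨc.comp (by fun_prop)
      have hac' := ha.continuous
      refine int_cs P (by fun_prop) ?_
      exact HasCompactSupport.mul_right (by
        simp only [sq]
        exact hac.mul_right)
    have hY2 : ∀ i, ∫ z, Y z i ^ 2 ∂P.μ ≤ b i ^ 2 * (∫ z, a z ^ 2 ∂P.μ + C' / lam) := by
      intro i
      have e1 : ∫ z, Y z i ^ 2 ∂P.μ = b i ^ 2 * (∫ z, a z ^ 2 ∂P.μ
          + ∫ z : X, (a z) ^ 2 * ((Ψ (lam * z.2 l)) ^ 2 - 1) ∂P.μ) := by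
        rw [← integral_add ha2i haΨi, ← integral_const_mul]
        refine integral_congr_ae (Eventually.of_forall fun z => ?_)
        simp only [hY]; ring
      rw [e1]
      have := (le_abs_self _).trans hs1
      gcongr
    have hsumj : ∀ i, ∑ j, ∫ z, dx j (v i) z ^ 2 ∂P.μ
        ≤ 2 * (b i ^ 2 * (∫ z, a z ^ 2 ∂P.μ + C' / lam)) + 6 * c ^ 2 * μ1 := by
      intro i
      refine (Finset.sum_le_sum fun j _ => hpt i j).trans ?_
      rw [Finset.sum_add_distrib, Finset.sum_ite_eq' Finset.univ l, if_pos (Finset.mem_univ l),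
        Finset.sum_const, Finset.card_univ, Fintype.card_fin, nsmul_eq_mul]
      have := hY2 i
      push_cast
      nlinarith
    refine (Finset.sum_le_sum fun i _ => hsumj i).trans ?_
    rw [Finset.sum_add_distrib, ← Finset.mul_sum, ← Finset.sum_mul,
        Finset.sum_const, Finset.card_univ, Fintype.card_fin, nsmul_eq_mul]
    have hc2 : c ^ 2 ≤ C ^ 2 / lam := by
      rw [hc, div_pow]
      refine div_le_div_of_nonneg_left (by positivity) hlam0 ?_
      nlinarith
    have h5 := hdiv (2 * B2 * C' + 18 * C ^ 2 * μ1) (by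
      rw [hZ]
      have h1 : 0 ≤ 9 * ((C * K3 + P.al * C') * μM) := by positivity
      have h2 : 0 ≤ Cad * (3 * ((C * K2 + P.al * C') * μM)) := by positivity
      linarith)
    have h6 : (2 * B2 * C' + 18 * C ^ 2 * μ1) / lam = 2 * B2 * (C' / lam) + 18 * (C ^ 2 / lam) * μ1 := by
      ring
    have h7 : c ^ 2 * μ1 ≤ C ^ 2 / lam * μ1 := mul_le_mul_of_nonneg_right hc2 hμ10
    push_cast
    rw [← hB2]
    nlinarith
  · -- L1
    have hsum1 : P.L1 (fun i j z => R1 i j z + R0 i j z) ≤ 9 * ((2 * |P.nu| + 6 * P.al) * (B * η1)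
      + (c * K3 + P.al * (C' / lam)) * μM) + P.L1 R0 := by
      have hle : ∀ i j, ∫ z, |R1 i j z + R0 i j z| ∂P.μ ≤ ((2 * |P.nu| + 6 * P.al) * (B * η1)
          + (c * K3 + P.al * (C' / lam)) * μM) + ∫ z, |R0 i j z| ∂P.μ := by
        intro i j
        have i1 := (hR1i i j).abs
        have i2 := (hR0.int i j).abs
        calc ∫ z, |R1 i j z + R0 i j z| ∂P.μ ≤ ∫ z, (|R1 i j z| + |R0 i j z|) ∂P.μ :=
              integral_mono ((hR1i i j).add (hR0.int i j)).abs (i1.add i2)
                (fun z => abs_add_le _ _)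
          _ = ∫ z, |R1 i j z| ∂P.μ + ∫ z, |R0 i j z| ∂P.μ := integral_add i1 i2
          _ ≤ _ := add_le_add (hR1L i j) le_rfl
      unfold Prob.L1
      refine (Finset.sum_le_sum fun i _ => Finset.sum_le_sum fun j _ => hle i j).trans ?_
      simp only [Finset.sum_add_distrib, Finset.sum_const, Finset.card_univ, Fintype.card_fin,
        nsmul_eq_mul]
      push_cast
      linarith
    have hsum2 : P.L1 R0 ≤ Cad * (3 * (3 * (B * η1) + (c * K2 + P.al * (C' / lam)) * μM)) := by
      refine hR0b.trans (mul_le_mul_of_nonneg_left ?_ hCad0)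
      refine (Finset.sum_le_sum fun i _ => hHvL i).trans (le_of_eq ?_)
      simp only [Finset.sum_const, Finset.card_univ, Fintype.card_fin, nsmul_eq_mul]
      push_cast; ring
    refine (hsum1.trans (add_le_add le_rfl hsum2)).trans ?_
    have h5 := hdiv (9 * ((C * K3 + P.al * C') * μM) + Cad * (3 * ((C * K2 + P.al * C') * μM))) (by
      rw [hZ]
      have h3 : 0 ≤ (2 * B2 * C' + 18 * C ^ 2 * μ1) := by positivity
      linarith)
    have h6 : 9 * ((2 * |P.nu| + 6 * P.al) * (B * η1) + (c * K3 + P.al * (C' / lam)) * μM)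
        + Cad * (3 * (3 * (B * η1) + (c * K2 + P.al * (C' / lam)) * μM))
        = κ * η1 + (9 * ((C * K3 + P.al * C') * μM)
          + Cad * (3 * ((C * K2 + P.al * C') * μM))) / lam := by
      rw [hκ, hc]; ring
    rw [h6]
    linarith
  · -- identity
    intro φ hφ
    have hd : ∀ i j, Continuous (dx j (φ i)) := fun i j => (smooth_dx (hφ.smooth i) j).continuous
    have hdc : ∀ i j, HasCompactSupport (dx j (φ i)) := fun i j => cs_dx (hφ.compact i) j
    have e1 := res_add P hV hv hφ
    have e2 := hR0e φ hφ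
    have e3 := hhQ φ hφ
    have e4 : ∫ z, ∑ i, Hv i z * φ i z ∂P.μ = ∫ z, ∑ i, P.hv V v i z * φ i z ∂P.μ
        - P.al * ∫ z, ∑ i, h i z * φ i z ∂P.μ := by
      rw [← integral_const_mul, ← integral_sub]
      · refine integral_congr_ae (Eventually.of_forall fun z => ?_)
        simp only [hHv, Finset.mul_sum, ← Finset.sum_sub_distrib]
        exact Finset.sum_congr rfl fun i _ => by ring
      · exact integrable_finsetSum _ fun i _ => int_mul_cs P (hv_int P hV hv i)
          (hφ.smooth i).continuous (hφ.compact i)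
      · exact Integrable.const_mul (integrable_finsetSum _ fun i _ => int_mul_cs P (hhi i)
          (hφ.smooth i).continuous (hφ.compact i)) _
    have iBd : ∀ R : Fin 3 → Fin 3 → X → ℝ, (∀ i j, Integrable (R i j) P.μ) →
        Integrable (fun z => ∑ i, ∑ j, R i j z * dx j (φ i) z) P.μ := fun R hR =>
      integrable_finsetSum _ fun i _ => integrable_finsetSum _ fun j _ =>
        int_mul_cs P (hR i j) (hd i j) (hdc i j)
    have j1 := iBd _ (fun i j => rv_int P hV hv i j)
    have j2 := iBd (fun i j z => Y z i * Y z j) hYi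
    have j3 := iBd Q hQi
    have j4 := iBd R0 hR0.int
    have e5 : P.Bd (fun i j z => R1 i j z + R0 i j z) φ = P.Bd (P.rv V v) φ
        + P.al * P.Bd (fun i j z => Y z i * Y z j) φ - P.al * P.Bd Q φ + P.Bd R0 φ := by
      unfold Prob.Bd
      rw [← int_comb P P.al j1 j2 j3 j4]
      refine integral_congr_ae (Eventually.of_forall fun z => ?_)
      simp only [hR1, Fin.sum_univ_three]
      ring
    have e6 : P.Bd (fun i j z => Y z i * Y z j) φ
        = (∫ z, (a z) ^ 2 * (∑ i, ∑ j, b i * b j * dx j (φ i) z) ∂P.μ)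
          + ∫ z : X, (a z) ^ 2 * ((Ψ (lam * z.2 l)) ^ 2 - 1)
              * (∑ i, ∑ j, b i * b j * dx j (φ i) z) ∂P.μ := by
      unfold Prob.Bd
      rw [← integral_add]
      · refine integral_congr_ae (Eventually.of_forall fun z => ?_)
        simp only [hY, Fin.sum_univ_three]
        ring
      · have hcd : Continuous (fun z => ∑ i, ∑ j, b i * b j * dx j (φ i) z) :=
          continuous_finsetSum _ fun i _ => continuous_finsetSum _ fun j _ =>
            (hd i j).const_smul (b i * b j)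
        have hac' := ha.continuous
        refine int_cs P (by fun_prop) (HasCompactSupport.mul_right ?_)
        simp only [sq]
        exact hac.mul_right
      · have hcd : Continuous (fun z => ∑ i, ∑ j, b i * b j * dx j (φ i) z) :=
          continuous_finsetSum _ fun i _ => continuous_finsetSum _ fun j _ =>
            (hd i j).const_smul (b i * b j)
        have hac' := ha.continuous
        have hcc : Continuous (fun z : X => Ψ (lam * z.2 l)) := hΨc.comp (by fun_prop)
        refine int_cs P (by fun_prop) (HasCompactSupport.mul_right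
          (HasCompactSupport.mul_right ?_))
        simp only [sq]
        exact hac.mul_right
    rw [e1, e5, e6]
    have e3' : ∫ z : X, (a z) ^ 2 * ((Ψ (lam * z.2 l)) ^ 2 - 1)
              * (∑ i, ∑ j, b i * b j * dx j (φ i) z) ∂P.μ
            = ∫ z, ∑ i, h i z * φ i z ∂P.μ + P.Bd Q φ := e3
    rw [e3']
    rw [e4] at e2
    linear_combination e2

end H37.LES
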