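import Mathlib

set_option autoImplicit false
set_option synthInstance.maxHeartbeats 400000
set_option synthInstance.maxSize 1000

namespace Pool.Agent.H90.Dickson

/-! ### Elementary facts on sums of two terms `a * 2 ^ i + b * 2 ^ j` -/

lemma noeq (b d : ℕ) (hb : b % 2 = 1) (hd : d % 2 = 1) (h : b ≠ d) :
    ∀ j l : ℕ, b * 2 ^ j ≠ d * 2 ^ l := by
  intro j
  induction j with
  | zero =>
    intro l
    rcases l with _ | l
    · simpa using h
    · have : d * 2 ^ (l + 1) = 2 * (d * 2 ^ l) := by ring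
      intro h'; rw [this] at h'; simp at h'; omega
  | succ j ih =>
    intro l
    have e1 : b * 2 ^ (j + 1) = 2 * (b * 2 ^ j) := by ring
    rcases l with _ | l
    · intro h'; rw [e1] at h'; simp at h'; omega
    · have e2 : d * 2 ^ (l + 1) = 2 * (d * 2 ^ l) := by ring
      intro h'
      apply ih l
      rw [e1, e2] at h'
      omega

/-- Truncation of an exponent at `8`. -/
lemma tr (j : ℕ) : 2 ^ j % 256 = 2 ^ (min j 8) % 256 := by
  rcases Nat.lt_or_ge j 8 with h | h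
  · rw [min_eq_left h.le]
  · obtain ⟨t, rfl⟩ := Nat.exists_eq_add_of_le h
    rw [min_eq_right (by omega), pow_add]
    norm_num

lemma chk3 : ∀ i j k l : Fin 9, (i.val = 0 ∨ j.val = 0 ∨ k.val = 0 ∨ l.val = 0) →
    (5 * 2 ^ i.val + 7 * 2 ^ j.val) % 256 = (7 * 2 ^ k.val + 17 * 2 ^ l.val) % 256 →
    (i.val < 8 → j.val < 8 → k.val < 8 → l.val < 8 →
      5 * 2 ^ i.val + 7 * 2 ^ j.val = 7 * 2 ^ k.val + 17 * 2 ^ l.val) →
    (i.val = 1 ∧ j.val = 1 ∧ k.val = 0 ∧ l.val = 0) ∨ (i.val = 1 ∧ j.val = 0 ∧ k.val = 8 ∧ l.val = 0) ∨ (i.val = 8 ∧ j.val = 0 ∧ k.val = 0 ∧ l.val = 8) := by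
  decide +kernel

theorem base3 (i j k l : ℕ) (h : 5 * 2 ^ i + 7 * 2 ^ j = 7 * 2 ^ k + 17 * 2 ^ l)
    (hz : i = 0 ∨ j = 0 ∨ k = 0 ∨ l = 0) : ∃ n, 5 * 2 ^ i + 7 * 2 ^ j = 3 * 2 ^ n := by
  have h1 := noeq 5 17 (by norm_num) (by norm_num) (by norm_num) i l
  have ti := tr i
  have tj := tr j
  have tk := tr k
  have tl := tr l
  have pi := Nat.one_le_two_pow (n := i)
  have pj := Nat.one_le_two_pow (n := j)
  have pk := Nat.one_le_two_pow (n := k)
  have pl := Nat.one_le_two_pow (n := l)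
  have key := chk3 ⟨min i 8, by omega⟩ ⟨min j 8, by omega⟩ ⟨min k 8, by omega⟩ ⟨min l 8, by omega⟩
    (by simp only []; omega) (by simp only []; omega) (by
      simp only []
      intro a1 a2 a3 a4
      have b1 : min i 8 = i := by omega
      have b2 : min j 8 = j := by omega
      have b3 : min k 8 = k := by omega
      have b4 : min l 8 = l := by omega
      rw [b1, b2, b3, b4]; exact h)
  rcases key with ⟨e1, e2, e3, e4⟩ | ⟨e1, e2, e3, e4⟩ | ⟨e1, e2, e3, e4⟩ <;>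
    simp only [] at e1 e2 e3 e4
  · have : i = 1 := by omega
    have : j = 1 := by omega
    subst i; subst j
    exact ⟨3, by norm_num⟩
  · exfalso
    obtain rfl : i = 1 := by omega
    obtain rfl : j = 0 := by omega
    obtain rfl : l = 0 := by omega
    norm_num at *
    try omega
  · exfalso
    obtain rfl : j = 0 := by omega
    obtain rfl : k = 0 := by omega
    norm_num at *
    try omega

theorem dio3 : ∀ i j k l : ℕ, 5 * 2 ^ i + 7 * 2 ^ j = 7 * 2 ^ k + 17 * 2 ^ l →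
    ∃ n, 5 * 2 ^ i + 7 * 2 ^ j = 3 * 2 ^ n := by
  intro i
  induction i with
  | zero => intro j k l h; exact base3 0 j k l h (Or.inl rfl)
  | succ i ih =>
    intro j k l h
    rcases j with _ | j
    · exact base3 _ _ _ _ h (by simp)
    rcases k with _ | k
    · exact base3 _ _ _ _ h (by simp)
    rcases l with _ | l
    · exact base3 _ _ _ _ h (by simp)
    rw [pow_succ, pow_succ, pow_succ, pow_succ] at h
    obtain ⟨n, hn⟩ := ih j k l (by omega)
    exact ⟨n + 1, by rw [pow_succ, pow_succ, pow_succ]; omega⟩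

lemma chk5 : ∀ i j k l : Fin 9, (i.val = 0 ∨ j.val = 0 ∨ k.val = 0 ∨ l.val = 0) →
    (3 * 2 ^ i.val + 7 * 2 ^ j.val) % 256 = (3 * 2 ^ k.val + 17 * 2 ^ l.val) % 256 →
    (i.val < 8 → j.val < 8 → k.val < 8 → l.val < 8 →
      3 * 2 ^ i.val + 7 * 2 ^ j.val = 3 * 2 ^ k.val + 17 * 2 ^ l.val) →
    (i.val = 1 ∧ j.val = 1 ∧ k.val = 0 ∧ l.val = 0) ∨ (i.val = 0 ∧ j.val = 1 ∧ k.val = 8 ∧ l.val = 0) ∨ (i.val = 0 ∧ j.val = 8 ∧ k.val = 0 ∧ l.val = 8) := by
  decide +kernel

theorem base5 (i j k l : ℕ) (h : 3 * 2 ^ i + 7 * 2 ^ j = 3 * 2 ^ k + 17 * 2 ^ l)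
    (hz : i = 0 ∨ j = 0 ∨ k = 0 ∨ l = 0) : ∃ n, 3 * 2 ^ i + 7 * 2 ^ j = 5 * 2 ^ n := by
  have h1 := noeq 7 17 (by norm_num) (by norm_num) (by norm_num) j l
  have ti := tr i
  have tj := tr j
  have tk := tr k
  have tl := tr l
  have pi := Nat.one_le_two_pow (n := i)
  have pj := Nat.one_le_two_pow (n := j)
  have pk := Nat.one_le_two_pow (n := k)
  have pl := Nat.one_le_two_pow (n := l)
  have key := chk5 ⟨min i 8, by omega⟩ ⟨min j 8, by omega⟩ ⟨min k 8, by omega⟩ ⟨min l 8, by omega⟩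
    (by simp only []; omega) (by simp only []; omega) (by
      simp only []
      intro a1 a2 a3 a4
      have b1 : min i 8 = i := by omega
      have b2 : min j 8 = j := by omega
      have b3 : min k 8 = k := by omega
      have b4 : min l 8 = l := by omega
      rw [b1, b2, b3, b4]; exact h)
  rcases key with ⟨e1, e2, e3, e4⟩ | ⟨e1, e2, e3, e4⟩ | ⟨e1, e2, e3, e4⟩ <;>
    simp only [] at e1 e2 e3 e4
  · have : i = 1 := by omega
    have : j = 1 := by omega
    subst i; subst j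
    exact ⟨2, by norm_num⟩
  · exfalso
    obtain rfl : i = 0 := by omega
    obtain rfl : j = 1 := by omega
    obtain rfl : l = 0 := by omega
    norm_num at *
    try omega
  · exfalso
    obtain rfl : i = 0 := by omega
    obtain rfl : k = 0 := by omega
    norm_num at *
    try omega

theorem dio5 : ∀ i j k l : ℕ, 3 * 2 ^ i + 7 * 2 ^ j = 3 * 2 ^ k + 17 * 2 ^ l →
    ∃ n, 3 * 2 ^ i + 7 * 2 ^ j = 5 * 2 ^ n := by
  intro i
  induction i with
  | zero => intro j k l h; exact base5 0 j k l h (Or.inl rfl)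
  | succ i ih =>
    intro j k l h
    rcases j with _ | j
    · exact base5 _ _ _ _ h (by simp)
    rcases k with _ | k
    · exact base5 _ _ _ _ h (by simp)
    rcases l with _ | l
    · exact base5 _ _ _ _ h (by simp)
    rw [pow_succ, pow_succ, pow_succ, pow_succ] at h
    obtain ⟨n, hn⟩ := ih j k l (by omega)
    exact ⟨n + 1, by rw [pow_succ, pow_succ, pow_succ]; omega⟩

lemma chk7 : ∀ i j k l : Fin 9, (i.val = 0 ∨ j.val = 0 ∨ k.val = 0 ∨ l.val = 0) →
    (3 * 2 ^ i.val + 11 * 2 ^ j.val) % 256 = (11 * 2 ^ k.val + 17 * 2 ^ l.val) % 256 →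
    (i.val < 8 → j.val < 8 → k.val < 8 → l.val < 8 →
      3 * 2 ^ i.val + 11 * 2 ^ j.val = 11 * 2 ^ k.val + 17 * 2 ^ l.val) →
    (i.val = 1 ∧ j.val = 1 ∧ k.val = 0 ∧ l.val = 0) ∨ (i.val = 1 ∧ j.val = 0 ∧ k.val = 8 ∧ l.val = 0) ∨ (i.val = 8 ∧ j.val = 0 ∧ k.val = 0 ∧ l.val = 8) := by
  decide +kernel

theorem base7 (i j k l : ℕ) (h : 3 * 2 ^ i + 11 * 2 ^ j = 11 * 2 ^ k + 17 * 2 ^ l)
    (hz : i = 0 ∨ j = 0 ∨ k = 0 ∨ l = 0) : ∃ n, 3 * 2 ^ i + 11 * 2 ^ j = 7 * 2 ^ n := by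
  have h1 := noeq 3 17 (by norm_num) (by norm_num) (by norm_num) i l
  have ti := tr i
  have tj := tr j
  have tk := tr k
  have tl := tr l
  have pi := Nat.one_le_two_pow (n := i)
  have pj := Nat.one_le_two_pow (n := j)
  have pk := Nat.one_le_two_pow (n := k)
  have pl := Nat.one_le_two_pow (n := l)
  have key := chk7 ⟨min i 8, by omega⟩ ⟨min j 8, by omega⟩ ⟨min k 8, by omega⟩ ⟨min l 8, by omega⟩
    (by simp only []; omega) (by simp only []; omega) (by
      simp only []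
      intro a1 a2 a3 a4
      have b1 : min i 8 = i := by omega
      have b2 : min j 8 = j := by omega
      have b3 : min k 8 = k := by omega
      have b4 : min l 8 = l := by omega
      rw [b1, b2, b3, b4]; exact h)
  rcases key with ⟨e1, e2, e3, e4⟩ | ⟨e1, e2, e3, e4⟩ | ⟨e1, e2, e3, e4⟩ <;>
    simp only [] at e1 e2 e3 e4
  · have : i = 1 := by omega
    have : j = 1 := by omega
    subst i; subst j
    exact ⟨2, by norm_num⟩
  · exfalso
    obtain rfl : i = 1 := by omega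
    obtain rfl : j = 0 := by omega
    obtain rfl : l = 0 := by omega
    norm_num at *
    try omega
  · exfalso
    obtain rfl : j = 0 := by omega
    obtain rfl : k = 0 := by omega
    norm_num at *
    try omega

theorem dio7 : ∀ i j k l : ℕ, 3 * 2 ^ i + 11 * 2 ^ j = 11 * 2 ^ k + 17 * 2 ^ l →
    ∃ n, 3 * 2 ^ i + 11 * 2 ^ j = 7 * 2 ^ n := by
  intro i
  induction i with
  | zero => intro j k l h; exact base7 0 j k l h (Or.inl rfl)
  | succ i ih =>
    intro j k l h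
    rcases j with _ | j
    · exact base7 _ _ _ _ h (by simp)
    rcases k with _ | k
    · exact base7 _ _ _ _ h (by simp)
    rcases l with _ | l
    · exact base7 _ _ _ _ h (by simp)
    rw [pow_succ, pow_succ, pow_succ, pow_succ] at h
    obtain ⟨n, hn⟩ := ih j k l (by omega)
    exact ⟨n + 1, by rw [pow_succ, pow_succ, pow_succ]; omega⟩

lemma chk11 : ∀ i j k l : Fin 9, (i.val = 0 ∨ j.val = 0 ∨ k.val = 0 ∨ l.val = 0) →
    (3 * 2 ^ i.val + 5 * 2 ^ j.val) % 256 = (5 * 2 ^ k.val + 17 * 2 ^ l.val) % 256 →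
    (i.val < 8 → j.val < 8 → k.val < 8 → l.val < 8 →
      3 * 2 ^ i.val + 5 * 2 ^ j.val = 5 * 2 ^ k.val + 17 * 2 ^ l.val) →
    (i.val = 2 ∧ j.val = 1 ∧ k.val = 0 ∧ l.val = 0) ∨ (i.val = 2 ∧ j.val = 0 ∧ k.val = 8 ∧ l.val = 0) ∨ (i.val = 8 ∧ j.val = 0 ∧ k.val = 0 ∧ l.val = 8) := by
  decide +kernel

theorem base11 (i j k l : ℕ) (h : 3 * 2 ^ i + 5 * 2 ^ j = 5 * 2 ^ k + 17 * 2 ^ l)
    (hz : i = 0 ∨ j = 0 ∨ k = 0 ∨ l = 0) : ∃ n, 3 * 2 ^ i + 5 * 2 ^ j = 11 * 2 ^ n := by
  have h1 := noeq 3 17 (by norm_num) (by norm_num) (by norm_num) i l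
  have ti := tr i
  have tj := tr j
  have tk := tr k
  have tl := tr l
  have pi := Nat.one_le_two_pow (n := i)
  have pj := Nat.one_le_two_pow (n := j)
  have pk := Nat.one_le_two_pow (n := k)
  have pl := Nat.one_le_two_pow (n := l)
  have key := chk11 ⟨min i 8, by omega⟩ ⟨min j 8, by omega⟩ ⟨min k 8, by omega⟩ ⟨min l 8, by omega⟩
    (by simp only []; omega) (by simp only []; omega) (by
      simp only []
      intro a1 a2 a3 a4
      have b1 : min i 8 = i := by omega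
      have b2 : min j 8 = j := by omega
      have b3 : min k 8 = k := by omega
      have b4 : min l 8 = l := by omega
      rw [b1, b2, b3, b4]; exact h)
  rcases key with ⟨e1, e2, e3, e4⟩ | ⟨e1, e2, e3, e4⟩ | ⟨e1, e2, e3, e4⟩ <;>
    simp only [] at e1 e2 e3 e4
  · have : i = 2 := by omega
    have : j = 1 := by omega
    subst i; subst j
    exact ⟨1, by norm_num⟩
  · exfalso
    obtain rfl : i = 2 := by omega
    obtain rfl : j = 0 := by omega
    obtain rfl : l = 0 := by omega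
    norm_num at *
    try omega
  · exfalso
    obtain rfl : j = 0 := by omega
    obtain rfl : k = 0 := by omega
    norm_num at *
    try omega

theorem dio11 : ∀ i j k l : ℕ, 3 * 2 ^ i + 5 * 2 ^ j = 5 * 2 ^ k + 17 * 2 ^ l →
    ∃ n, 3 * 2 ^ i + 5 * 2 ^ j = 11 * 2 ^ n := by
  intro i
  induction i with
  | zero => intro j k l h; exact base11 0 j k l h (Or.inl rfl)
  | succ i ih =>
    intro j k l h
    rcases j with _ | j
    · exact base11 _ _ _ _ h (by simp)
    rcases k with _ | k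
    · exact base11 _ _ _ _ h (by simp)
    rcases l with _ | l
    · exact base11 _ _ _ _ h (by simp)
    rw [pow_succ, pow_succ, pow_succ, pow_succ] at h
    obtain ⟨n, hn⟩ := ih j k l (by omega)
    exact ⟨n + 1, by rw [pow_succ, pow_succ, pow_succ]; omega⟩

lemma chk17 : ∀ i j k l : Fin 9, (i.val = 0 ∨ j.val = 0 ∨ k.val = 0 ∨ l.val = 0) →
    (3 * 2 ^ i.val + 5 * 2 ^ j.val) % 256 = (5 * 2 ^ k.val + 7 * 2 ^ l.val) % 256 →
    (i.val < 8 → j.val < 8 → k.val < 8 → l.val < 8 →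
      3 * 2 ^ i.val + 5 * 2 ^ j.val = 5 * 2 ^ k.val + 7 * 2 ^ l.val) →
    (i.val = 2 ∧ j.val = 0 ∧ k.val = 1 ∧ l.val = 0) ∨ (i.val = 2 ∧ j.val = 8 ∧ k.val = 0 ∧ l.val = 0) ∨ (i.val = 8 ∧ j.val = 0 ∧ k.val = 0 ∧ l.val = 8) := by
  decide +kernel

theorem base17 (i j k l : ℕ) (h : 3 * 2 ^ i + 5 * 2 ^ j = 5 * 2 ^ k + 7 * 2 ^ l)
    (hz : i = 0 ∨ j = 0 ∨ k = 0 ∨ l = 0) : ∃ n, 3 * 2 ^ i + 5 * 2 ^ j = 17 * 2 ^ n := by
  have h1 := noeq 3 7 (by norm_num) (by norm_num) (by norm_num) i l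
  have ti := tr i
  have tj := tr j
  have tk := tr k
  have tl := tr l
  have pi := Nat.one_le_two_pow (n := i)
  have pj := Nat.one_le_two_pow (n := j)
  have pk := Nat.one_le_two_pow (n := k)
  have pl := Nat.one_le_two_pow (n := l)
  have key := chk17 ⟨min i 8, by omega⟩ ⟨min j 8, by omega⟩ ⟨min k 8, by omega⟩ ⟨min l 8, by omega⟩
    (by simp only []; omega) (by simp only []; omega) (by
      simp only []
      intro a1 a2 a3 a4
      have b1 : min i 8 = i := by omega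
      have b2 : min j 8 = j := by omega
      have b3 : min k 8 = k := by omega
      have b4 : min l 8 = l := by omega
      rw [b1, b2, b3, b4]; exact h)
  rcases key with ⟨e1, e2, e3, e4⟩ | ⟨e1, e2, e3, e4⟩ | ⟨e1, e2, e3, e4⟩ <;>
    simp only [] at e1 e2 e3 e4
  · have : i = 2 := by omega
    have : j = 0 := by omega
    subst i; subst j
    exact ⟨0, by norm_num⟩
  · exfalso
    obtain rfl : i = 2 := by omega
    obtain rfl : k = 0 := by omega
    obtain rfl : l = 0 := by omega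
    norm_num at *
    try omega
  · exfalso
    obtain rfl : j = 0 := by omega
    obtain rfl : k = 0 := by omega
    norm_num at *
    try omega

theorem dio17 : ∀ i j k l : ℕ, 3 * 2 ^ i + 5 * 2 ^ j = 5 * 2 ^ k + 7 * 2 ^ l →
    ∃ n, 3 * 2 ^ i + 5 * 2 ^ j = 17 * 2 ^ n := by
  intro i
  induction i with
  | zero => intro j k l h; exact base17 0 j k l h (Or.inl rfl)
  | succ i ih =>
    intro j k l h
    rcases j with _ | j
    · exact base17 _ _ _ _ h (by simp)
    rcases k with _ | k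
    · exact base17 _ _ _ _ h (by simp)
    rcases l with _ | l
    · exact base17 _ _ _ _ h (by simp)
    rw [pow_succ, pow_succ, pow_succ, pow_succ] at h
    obtain ⟨n, hn⟩ := ih j k l (by omega)
    exact ⟨n + 1, by rw [pow_succ, pow_succ, pow_succ]; omega⟩
end Pool.Agent.H90.Dickson
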