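import Mathlib
import Pool.Agent.H90.Pow

set_option autoImplicit false

namespace Pool.Agent.H90.Dickson

/-- The constants (isolated elements). -/
def consts : List ℕ := [24, 32, 34, 37, 46, 49, 50, 52, 53, 56, 58, 62, 66, 67, 69, 70, 71, 72, 74,
  77, 78, 79, 80, 81, 82, 85, 86, 87, 88, 89, 90, 91, 92, 93, 94, 96, 98, 103, 110, 111, 129, 139,
  145, 148, 166, 177]

/-- The residues modulo `201` of the full classes. -/
def bulk : List ℕ := [59, 132, 134, 135, 142, 143]

/-- `x + c = 201 * (v * 2 ^ k)` for some `k`. -/
def sg (v c x : ℕ) : Prop := ∃ k, x + c = 201 * (v * 2 ^ k)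

/-- `x + c = 201 * (v * 2 ^ i + w * 2 ^ j)` for some `i`, `j`. -/
def ns (v w c x : ℕ) : Prop := ∃ i j, x + c = 201 * (v * 2 ^ i + w * 2 ^ j)

/-- The explicit set. -/
def pat (x : ℕ) : Prop :=
  x ∈ consts ∨ x % 201 ∈ bulk ∨
  sg 3 41 x ∨ sg 5 47 x ∨ sg 7 40 x ∨ sg 11 36 x ∨ sg 17 38 x ∨
  (x % 201 = 113 ∧ ¬ ns 3 5 88 x) ∨
  (x % 201 = 120 ∧ ¬ ns 3 7 81 x) ∨
  (x % 201 = 124 ∧ ¬ ns 3 11 77 x) ∨
  (x % 201 = 122 ∧ ¬ ns 3 17 79 x) ∨
  (x % 201 = 114 ∧ ¬ ns 5 7 87 x) ∨
  (x % 201 = 116 ∧ ¬ ns 5 17 85 x) ∨
  (x % 201 = 123 ∧ ¬ ns 7 17 78 x) ∨
  (x % 201 = 127 ∧ ¬ ns 11 17 74 x)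

/-- The residues that carry infinitely many elements. -/
def live : List ℕ := [59, 113, 114, 116, 120, 122, 123, 124, 127, 132, 134, 135, 142, 143, 154, 160,
  161, 163, 165]

lemma sg_mod {v c x : ℕ} (h : sg v c x) : (x + c) % 201 = 0 := by
  obtain ⟨k, hk⟩ := h; rw [hk]; exact Nat.mul_mod_right _ _

lemma sg3 {x : ℕ} (h : sg 3 41 x) : x % 201 = 160 := by have := sg_mod h; omega
lemma sg5 {x : ℕ} (h : sg 5 47 x) : x % 201 = 154 := by have := sg_mod h; omega
lemma sg7 {x : ℕ} (h : sg 7 40 x) : x % 201 = 161 := by have := sg_mod h; omega
lemma sg11 {x : ℕ} (h : sg 11 36 x) : x % 201 = 165 := by have := sg_mod h; omega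
lemma sg17 {x : ℕ} (h : sg 17 38 x) : x % 201 = 163 := by have := sg_mod h; omega

lemma consts_not_live : ∀ x ∈ consts, x % 201 ∉ live := by decide

lemma consts_le : ∀ x ∈ consts, 24 ≤ x ∧ x ≤ 177 := by decide

lemma bulk_live : ∀ r ∈ bulk, r ∈ live := by decide

/-- An element is a constant or its residue is live. -/
lemma pat_cases {x : ℕ} (h : pat x) : x ∈ consts ∨ x % 201 ∈ live := by
  rcases h with h | h | h | h | h | h | h | h | h | h | h | h | h | h | h
  · exact Or.inl h
  · exact Or.inr (bulk_live _ h)
  · right; rw [sg3 h]; decide
  · right; rw [sg5 h]; decide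
  · right; rw [sg7 h]; decide
  · right; rw [sg11 h]; decide
  · right; rw [sg17 h]; decide
  all_goals (right; rw [h.1]; decide)

lemma pat_const {x : ℕ} (h : x ∈ consts) : pat x := Or.inl h

lemma pat_of_bulk {x : ℕ} (h : x % 201 ∈ bulk) : pat x := Or.inr (Or.inl h)

lemma pat_sig3 {x : ℕ} (hx : x % 201 = 160) : pat x ↔ sg 3 41 x := by
  constructor
  · intro h
    have hc : x ∉ consts := fun hc => consts_not_live x hc (by rw [hx]; decide)
    rcases h with h | h | h | h | h | h | h | h | h | h | h | h | h | h | h
    · exact absurd h hc
    · rw [hx] at h; exact absurd h (by decide)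
    · exact h
    · have := sg5 h; omega
    · have := sg7 h; omega
    · have := sg11 h; omega
    · have := sg17 h; omega
    all_goals (have := h.1; omega)
  · intro h; unfold pat; tauto

lemma pat_sig5 {x : ℕ} (hx : x % 201 = 154) : pat x ↔ sg 5 47 x := by
  constructor
  · intro h
    have hc : x ∉ consts := fun hc => consts_not_live x hc (by rw [hx]; decide)
    rcases h with h | h | h | h | h | h | h | h | h | h | h | h | h | h | h
    · exact absurd h hc
    · rw [hx] at h; exact absurd h (by decide)
    · have := sg3 h; omega
    · exact h
    · have := sg7 h; omega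
    · have := sg11 h; omega
    · have := sg17 h; omega
    all_goals (have := h.1; omega)
  · intro h; unfold pat; tauto

lemma pat_sig7 {x : ℕ} (hx : x % 201 = 161) : pat x ↔ sg 7 40 x := by
  constructor
  · intro h
    have hc : x ∉ consts := fun hc => consts_not_live x hc (by rw [hx]; decide)
    rcases h with h | h | h | h | h | h | h | h | h | h | h | h | h | h | h
    · exact absurd h hc
    · rw [hx] at h; exact absurd h (by decide)
    · have := sg3 h; omega
    · have := sg5 h; omega
    · exact h
    · have := sg11 h; omega
    · have := sg17 h; omega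
    all_goals (have := h.1; omega)
  · intro h; unfold pat; tauto

lemma pat_sig11 {x : ℕ} (hx : x % 201 = 165) : pat x ↔ sg 11 36 x := by
  constructor
  · intro h
    have hc : x ∉ consts := fun hc => consts_not_live x hc (by rw [hx]; decide)
    rcases h with h | h | h | h | h | h | h | h | h | h | h | h | h | h | h
    · exact absurd h hc
    · rw [hx] at h; exact absurd h (by decide)
    · have := sg3 h; omega
    · have := sg5 h; omega
    · have := sg7 h; omega
    · exact h
    · have := sg17 h; omega
    all_goals (have := h.1; omega)
  · intro h; unfold pat; tauto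

lemma pat_sig17 {x : ℕ} (hx : x % 201 = 163) : pat x ↔ sg 17 38 x := by
  constructor
  · intro h
    have hc : x ∉ consts := fun hc => consts_not_live x hc (by rw [hx]; decide)
    rcases h with h | h | h | h | h | h | h | h | h | h | h | h | h | h | h
    · exact absurd h hc
    · rw [hx] at h; exact absurd h (by decide)
    · have := sg3 h; omega
    · have := sg5 h; omega
    · have := sg7 h; omega
    · have := sg11 h; omega
    · exact h
    all_goals (have := h.1; omega)
  · intro h; unfold pat; tauto

lemma pat_p3_5 {x : ℕ} (hx : x % 201 = 113) : pat x ↔ ¬ ns 3 5 88 x := by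
  constructor
  · intro h
    have hc : x ∉ consts := fun hc => consts_not_live x hc (by rw [hx]; decide)
    rcases h with h | h | h | h | h | h | h | h | h | h | h | h | h | h | h
    · exact absurd h hc
    · rw [hx] at h; exact absurd h (by decide)
    · have := sg3 h; omega
    · have := sg5 h; omega
    · have := sg7 h; omega
    · have := sg11 h; omega
    · have := sg17 h; omega
    · exact h.2
    · have := h.1; omega
    · have := h.1; omega
    · have := h.1; omega
    · have := h.1; omega
    · have := h.1; omega
    · have := h.1; omega
    · have := h.1; omega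
  · intro h; unfold pat; tauto

lemma pat_p3_7 {x : ℕ} (hx : x % 201 = 120) : pat x ↔ ¬ ns 3 7 81 x := by
  constructor
  · intro h
    have hc : x ∉ consts := fun hc => consts_not_live x hc (by rw [hx]; decide)
    rcases h with h | h | h | h | h | h | h | h | h | h | h | h | h | h | h
    · exact absurd h hc
    · rw [hx] at h; exact absurd h (by decide)
    · have := sg3 h; omega
    · have := sg5 h; omega
    · have := sg7 h; omega
    · have := sg11 h; omega
    · have := sg17 h; omega
    · have := h.1; omega
    · exact h.2
    · have := h.1; omega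
    · have := h.1; omega
    · have := h.1; omega
    · have := h.1; omega
    · have := h.1; omega
    · have := h.1; omega
  · intro h; unfold pat; tauto

lemma pat_p3_11 {x : ℕ} (hx : x % 201 = 124) : pat x ↔ ¬ ns 3 11 77 x := by
  constructor
  · intro h
    have hc : x ∉ consts := fun hc => consts_not_live x hc (by rw [hx]; decide)
    rcases h with h | h | h | h | h | h | h | h | h | h | h | h | h | h | h
    · exact absurd h hc
    · rw [hx] at h; exact absurd h (by decide)
    · have := sg3 h; omega
    · have := sg5 h; omega
    · have := sg7 h; omega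
    · have := sg11 h; omega
    · have := sg17 h; omega
    · have := h.1; omega
    · have := h.1; omega
    · exact h.2
    · have := h.1; omega
    · have := h.1; omega
    · have := h.1; omega
    · have := h.1; omega
    · have := h.1; omega
  · intro h; unfold pat; tauto

lemma pat_p3_17 {x : ℕ} (hx : x % 201 = 122) : pat x ↔ ¬ ns 3 17 79 x := by
  constructor
  · intro h
    have hc : x ∉ consts := fun hc => consts_not_live x hc (by rw [hx]; decide)
    rcases h with h | h | h | h | h | h | h | h | h | h | h | h | h | h | h
    · exact absurd h hc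
    · rw [hx] at h; exact absurd h (by decide)
    · have := sg3 h; omega
    · have := sg5 h; omega
    · have := sg7 h; omega
    · have := sg11 h; omega
    · have := sg17 h; omega
    · have := h.1; omega
    · have := h.1; omega
    · have := h.1; omega
    · exact h.2
    · have := h.1; omega
    · have := h.1; omega
    · have := h.1; omega
    · have := h.1; omega
  · intro h; unfold pat; tauto

lemma pat_p5_7 {x : ℕ} (hx : x % 201 = 114) : pat x ↔ ¬ ns 5 7 87 x := by
  constructor
  · intro h
    have hc : x ∉ consts := fun hc => consts_not_live x hc (by rw [hx]; decide)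
    rcases h with h | h | h | h | h | h | h | h | h | h | h | h | h | h | h
    · exact absurd h hc
    · rw [hx] at h; exact absurd h (by decide)
    · have := sg3 h; omega
    · have := sg5 h; omega
    · have := sg7 h; omega
    · have := sg11 h; omega
    · have := sg17 h; omega
    · have := h.1; omega
    · have := h.1; omega
    · have := h.1; omega
    · have := h.1; omega
    · exact h.2
    · have := h.1; omega
    · have := h.1; omega
    · have := h.1; omega
  · intro h; unfold pat; tauto

lemma pat_p5_17 {x : ℕ} (hx : x % 201 = 116) : pat x ↔ ¬ ns 5 17 85 x := by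
  constructor
  · intro h
    have hc : x ∉ consts := fun hc => consts_not_live x hc (by rw [hx]; decide)
    rcases h with h | h | h | h | h | h | h | h | h | h | h | h | h | h | h
    · exact absurd h hc
    · rw [hx] at h; exact absurd h (by decide)
    · have := sg3 h; omega
    · have := sg5 h; omega
    · have := sg7 h; omega
    · have := sg11 h; omega
    · have := sg17 h; omega
    · have := h.1; omega
    · have := h.1; omega
    · have := h.1; omega
    · have := h.1; omega
    · have := h.1; omega
    · exact h.2
    · have := h.1; omega
    · have := h.1; omega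
  · intro h; unfold pat; tauto

lemma pat_p7_17 {x : ℕ} (hx : x % 201 = 123) : pat x ↔ ¬ ns 7 17 78 x := by
  constructor
  · intro h
    have hc : x ∉ consts := fun hc => consts_not_live x hc (by rw [hx]; decide)
    rcases h with h | h | h | h | h | h | h | h | h | h | h | h | h | h | h
    · exact absurd h hc
    · rw [hx] at h; exact absurd h (by decide)
    · have := sg3 h; omega
    · have := sg5 h; omega
    · have := sg7 h; omega
    · have := sg11 h; omega
    · have := sg17 h; omega
    · have := h.1; omega
    · have := h.1; omega
    · have := h.1; omega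
    · have := h.1; omega
    · have := h.1; omega
    · have := h.1; omega
    · exact h.2
    · have := h.1; omega
  · intro h; unfold pat; tauto

lemma pat_p11_17 {x : ℕ} (hx : x % 201 = 127) : pat x ↔ ¬ ns 11 17 74 x := by
  constructor
  · intro h
    have hc : x ∉ consts := fun hc => consts_not_live x hc (by rw [hx]; decide)
    rcases h with h | h | h | h | h | h | h | h | h | h | h | h | h | h | h
    · exact absurd h hc
    · rw [hx] at h; exact absurd h (by decide)
    · have := sg3 h; omega
    · have := sg5 h; omega
    · have := sg7 h; omega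
    · have := sg11 h; omega
    · have := sg17 h; omega
    · have := h.1; omega
    · have := h.1; omega
    · have := h.1; omega
    · have := h.1; omega
    · have := h.1; omega
    · have := h.1; omega
    · have := h.1; omega
    · exact h.2
  · intro h; unfold pat; tauto

lemma not_pat_zero : ¬ pat 0 := by
  intro h
  rcases pat_cases h with h | h <;> revert h <;> decide

lemma pat_pos {x : ℕ} (h : pat x) : 0 < x := by
  rcases Nat.eq_zero_or_pos x with rfl | h'
  · exact absurd h not_pat_zero
  · exact h'

end Pool.Agent.H90.Dickson
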