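import Mathlib
import Pool.Agent.H90.Pattern

set_option autoImplicit false

namespace Pool.Agent.H90.Dickson

/-- The only way a constant and a live residue add up to a live residue. -/
lemma const_live : ∀ y ∈ consts, ∀ r ∈ live, (y + r) % 201 ∈ live →
    (y = 46 ∧ r = 114) ∨ (y = 37 ∧ r = 123) ∨ (y = 34 ∧ r = 120) ∨ (y = 32 ∧ r = 122) ∨ (y = 37 ∧ r = 124) ∨ (y = 34 ∧ r = 127) ∨ (y = 52 ∧ r = 113) ∨ (y = 49 ∧ r = 116) ∨ (y = 50 ∧ r = 113) ∨ (y = 49 ∧ r = 114) := by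
  decide +kernel

/-- The only way two live residues add up to a live residue. -/
lemma live_live : ∀ r ∈ live, ∀ s ∈ live, (r + s) % 201 ∈ live →
    (r = 160 ∧ s = 154) ∨ (r = 154 ∧ s = 160) ∨ (r = 160 ∧ s = 161) ∨ (r = 161 ∧ s = 160) ∨ (r = 160 ∧ s = 165) ∨ (r = 165 ∧ s = 160) ∨ (r = 160 ∧ s = 163) ∨ (r = 163 ∧ s = 160) ∨ (r = 154 ∧ s = 161) ∨ (r = 161 ∧ s = 154) ∨ (r = 154 ∧ s = 163) ∨ (r = 163 ∧ s = 154) ∨ (r = 161 ∧ s = 163) ∨ (r = 163 ∧ s = 161) ∨ (r = 165 ∧ s = 163) ∨ (r = 163 ∧ s = 165) := by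
  decide +kernel

lemma rep3_5_7 {x : ℕ} (hx : 6893 < x) (h : sg 3 41 x) : ns 5 7 41 x := by
  obtain ⟨k, hk⟩ := h
  have hk' : 3 ≤ k := by
    by_contra hlt
    have : k < 3 := by omega
    interval_cases k <;> omega
  obtain ⟨t, rfl⟩ := Nat.exists_eq_add_of_le hk'
  refine ⟨t + 1, t + 1, ?_⟩
  rw [hk]; simp only [pow_add]; ring

lemma rep3_7_17 {x : ℕ} (hx : 6893 < x) (h : sg 3 41 x) : ns 7 17 41 x := by
  obtain ⟨k, hk⟩ := h
  have hk' : 3 ≤ k := by
    by_contra hlt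
    have : k < 3 := by omega
    interval_cases k <;> omega
  obtain ⟨t, rfl⟩ := Nat.exists_eq_add_of_le hk'
  refine ⟨t + 0, t + 0, ?_⟩
  rw [hk]; simp only [pow_add]; ring

lemma rep5_3_7 {x : ℕ} (hx : 6893 < x) (h : sg 5 47 x) : ns 3 7 47 x := by
  obtain ⟨k, hk⟩ := h
  have hk' : 3 ≤ k := by
    by_contra hlt
    have : k < 3 := by omega
    interval_cases k <;> omega
  obtain ⟨t, rfl⟩ := Nat.exists_eq_add_of_le hk'
  refine ⟨t + 2, t + 2, ?_⟩
  rw [hk]; simp only [pow_add]; ring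

lemma rep5_3_17 {x : ℕ} (hx : 6893 < x) (h : sg 5 47 x) : ns 3 17 47 x := by
  obtain ⟨k, hk⟩ := h
  have hk' : 3 ≤ k := by
    by_contra hlt
    have : k < 3 := by omega
    interval_cases k <;> omega
  obtain ⟨t, rfl⟩ := Nat.exists_eq_add_of_le hk'
  refine ⟨t + 1, t + 1, ?_⟩
  rw [hk]; simp only [pow_add]; ring

lemma rep7_3_11 {x : ℕ} (hx : 6893 < x) (h : sg 7 40 x) : ns 3 11 40 x := by
  obtain ⟨k, hk⟩ := h
  have hk' : 2 ≤ k := by
    by_contra hlt
    have : k < 2 := by omega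
    interval_cases k <;> omega
  obtain ⟨t, rfl⟩ := Nat.exists_eq_add_of_le hk'
  refine ⟨t + 1, t + 1, ?_⟩
  rw [hk]; simp only [pow_add]; ring

lemma rep7_11_17 {x : ℕ} (hx : 6893 < x) (h : sg 7 40 x) : ns 11 17 40 x := by
  obtain ⟨k, hk⟩ := h
  have hk' : 2 ≤ k := by
    by_contra hlt
    have : k < 2 := by omega
    interval_cases k <;> omega
  obtain ⟨t, rfl⟩ := Nat.exists_eq_add_of_le hk'
  refine ⟨t + 0, t + 0, ?_⟩
  rw [hk]; simp only [pow_add]; ring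

lemma rep11_3_5 {x : ℕ} (hx : 6893 < x) (h : sg 11 36 x) : ns 3 5 36 x := by
  obtain ⟨k, hk⟩ := h
  have hk' : 1 ≤ k := by
    by_contra hlt
    have : k < 1 := by omega
    interval_cases k <;> omega
  obtain ⟨t, rfl⟩ := Nat.exists_eq_add_of_le hk'
  refine ⟨t + 2, t + 1, ?_⟩
  rw [hk]; simp only [pow_add]; ring

lemma rep11_5_17 {x : ℕ} (hx : 6893 < x) (h : sg 11 36 x) : ns 5 17 36 x := by
  obtain ⟨k, hk⟩ := h
  have hk' : 1 ≤ k := by
    by_contra hlt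
    have : k < 1 := by omega
    interval_cases k <;> omega
  obtain ⟨t, rfl⟩ := Nat.exists_eq_add_of_le hk'
  refine ⟨t + 0, t + 0, ?_⟩
  rw [hk]; simp only [pow_add]; ring

lemma rep17_3_5 {x : ℕ} (hx : 6893 < x) (h : sg 17 38 x) : ns 3 5 38 x := by
  obtain ⟨k, hk⟩ := h
  have hk' : 1 ≤ k := by
    by_contra hlt
    have : k < 1 := by omega
    interval_cases k <;> omega
  obtain ⟨t, rfl⟩ := Nat.exists_eq_add_of_le hk'
  refine ⟨t + 3, t + 1, ?_⟩
  rw [hk]; simp only [pow_add]; ring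

lemma rep17_5_7 {x : ℕ} (hx : 6893 < x) (h : sg 17 38 x) : ns 5 7 38 x := by
  obtain ⟨k, hk⟩ := h
  have hk' : 1 ≤ k := by
    by_contra hlt
    have : k < 1 := by omega
    interval_cases k <;> omega
  obtain ⟨t, rfl⟩ := Nat.exists_eq_add_of_le hk'
  refine ⟨t + 2, t + 1, ?_⟩
  rw [hk]; simp only [pow_add]; ring

lemma gate3_5_7 {z x : ℕ} (hz : z % 201 = 114) (pz : pat z) (hx : 6893 < x) (px : pat x)
    (e : 46 + z = x) : False := by
  have h1 := (pat_p5_7 hz).1 pz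
  have h2 := (pat_sig3 (by omega)).1 px
  obtain ⟨i, j, h3⟩ := rep3_5_7 hx h2
  exact h1 ⟨i, j, by omega⟩

lemma gate3_7_17 {z x : ℕ} (hz : z % 201 = 123) (pz : pat z) (hx : 6893 < x) (px : pat x)
    (e : 37 + z = x) : False := by
  have h1 := (pat_p7_17 hz).1 pz
  have h2 := (pat_sig3 (by omega)).1 px
  obtain ⟨i, j, h3⟩ := rep3_7_17 hx h2
  exact h1 ⟨i, j, by omega⟩

lemma gate5_3_7 {z x : ℕ} (hz : z % 201 = 120) (pz : pat z) (hx : 6893 < x) (px : pat x)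
    (e : 34 + z = x) : False := by
  have h1 := (pat_p3_7 hz).1 pz
  have h2 := (pat_sig5 (by omega)).1 px
  obtain ⟨i, j, h3⟩ := rep5_3_7 hx h2
  exact h1 ⟨i, j, by omega⟩

lemma gate5_3_17 {z x : ℕ} (hz : z % 201 = 122) (pz : pat z) (hx : 6893 < x) (px : pat x)
    (e : 32 + z = x) : False := by
  have h1 := (pat_p3_17 hz).1 pz
  have h2 := (pat_sig5 (by omega)).1 px
  obtain ⟨i, j, h3⟩ := rep5_3_17 hx h2
  exact h1 ⟨i, j, by omega⟩

lemma gate7_3_11 {z x : ℕ} (hz : z % 201 = 124) (pz : pat z) (hx : 6893 < x) (px : pat x)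
    (e : 37 + z = x) : False := by
  have h1 := (pat_p3_11 hz).1 pz
  have h2 := (pat_sig7 (by omega)).1 px
  obtain ⟨i, j, h3⟩ := rep7_3_11 hx h2
  exact h1 ⟨i, j, by omega⟩

lemma gate7_11_17 {z x : ℕ} (hz : z % 201 = 127) (pz : pat z) (hx : 6893 < x) (px : pat x)
    (e : 34 + z = x) : False := by
  have h1 := (pat_p11_17 hz).1 pz
  have h2 := (pat_sig7 (by omega)).1 px
  obtain ⟨i, j, h3⟩ := rep7_11_17 hx h2
  exact h1 ⟨i, j, by omega⟩

lemma gate11_3_5 {z x : ℕ} (hz : z % 201 = 113) (pz : pat z) (hx : 6893 < x) (px : pat x)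
    (e : 52 + z = x) : False := by
  have h1 := (pat_p3_5 hz).1 pz
  have h2 := (pat_sig11 (by omega)).1 px
  obtain ⟨i, j, h3⟩ := rep11_3_5 hx h2
  exact h1 ⟨i, j, by omega⟩

lemma gate11_5_17 {z x : ℕ} (hz : z % 201 = 116) (pz : pat z) (hx : 6893 < x) (px : pat x)
    (e : 49 + z = x) : False := by
  have h1 := (pat_p5_17 hz).1 pz
  have h2 := (pat_sig11 (by omega)).1 px
  obtain ⟨i, j, h3⟩ := rep11_5_17 hx h2
  exact h1 ⟨i, j, by omega⟩

lemma gate17_3_5 {z x : ℕ} (hz : z % 201 = 113) (pz : pat z) (hx : 6893 < x) (px : pat x)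
    (e : 50 + z = x) : False := by
  have h1 := (pat_p3_5 hz).1 pz
  have h2 := (pat_sig17 (by omega)).1 px
  obtain ⟨i, j, h3⟩ := rep17_3_5 hx h2
  exact h1 ⟨i, j, by omega⟩

lemma gate17_5_7 {z x : ℕ} (hz : z % 201 = 114) (pz : pat z) (hx : 6893 < x) (px : pat x)
    (e : 49 + z = x) : False := by
  have h1 := (pat_p5_7 hz).1 pz
  have h2 := (pat_sig17 (by omega)).1 px
  obtain ⟨i, j, h3⟩ := rep17_5_7 hx h2
  exact h1 ⟨i, j, by omega⟩

lemma sum3_5 {y z x : ℕ} (hy : y % 201 = 160) (hz : z % 201 = 154) (py : pat y) (pz : pat z)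
    (px : pat x) (e : y + z = x) : False := by
  obtain ⟨i, hi⟩ := (pat_sig3 hy).1 py
  obtain ⟨j, hj⟩ := (pat_sig5 hz).1 pz
  exact (pat_p3_5 (by omega)).1 px ⟨i, j, by rw [mul_add, ← hi, ← hj]; omega⟩

lemma sum3_7 {y z x : ℕ} (hy : y % 201 = 160) (hz : z % 201 = 161) (py : pat y) (pz : pat z)
    (px : pat x) (e : y + z = x) : False := by
  obtain ⟨i, hi⟩ := (pat_sig3 hy).1 py
  obtain ⟨j, hj⟩ := (pat_sig7 hz).1 pz
  exact (pat_p3_7 (by omega)).1 px ⟨i, j, by rw [mul_add, ← hi, ← hj]; omega⟩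

lemma sum3_11 {y z x : ℕ} (hy : y % 201 = 160) (hz : z % 201 = 165) (py : pat y) (pz : pat z)
    (px : pat x) (e : y + z = x) : False := by
  obtain ⟨i, hi⟩ := (pat_sig3 hy).1 py
  obtain ⟨j, hj⟩ := (pat_sig11 hz).1 pz
  exact (pat_p3_11 (by omega)).1 px ⟨i, j, by rw [mul_add, ← hi, ← hj]; omega⟩

lemma sum3_17 {y z x : ℕ} (hy : y % 201 = 160) (hz : z % 201 = 163) (py : pat y) (pz : pat z)
    (px : pat x) (e : y + z = x) : False := by
  obtain ⟨i, hi⟩ := (pat_sig3 hy).1 py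
  obtain ⟨j, hj⟩ := (pat_sig17 hz).1 pz
  exact (pat_p3_17 (by omega)).1 px ⟨i, j, by rw [mul_add, ← hi, ← hj]; omega⟩

lemma sum5_7 {y z x : ℕ} (hy : y % 201 = 154) (hz : z % 201 = 161) (py : pat y) (pz : pat z)
    (px : pat x) (e : y + z = x) : False := by
  obtain ⟨i, hi⟩ := (pat_sig5 hy).1 py
  obtain ⟨j, hj⟩ := (pat_sig7 hz).1 pz
  exact (pat_p5_7 (by omega)).1 px ⟨i, j, by rw [mul_add, ← hi, ← hj]; omega⟩

lemma sum5_17 {y z x : ℕ} (hy : y % 201 = 154) (hz : z % 201 = 163) (py : pat y) (pz : pat z)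
    (px : pat x) (e : y + z = x) : False := by
  obtain ⟨i, hi⟩ := (pat_sig5 hy).1 py
  obtain ⟨j, hj⟩ := (pat_sig17 hz).1 pz
  exact (pat_p5_17 (by omega)).1 px ⟨i, j, by rw [mul_add, ← hi, ← hj]; omega⟩

lemma sum7_17 {y z x : ℕ} (hy : y % 201 = 161) (hz : z % 201 = 163) (py : pat y) (pz : pat z)
    (px : pat x) (e : y + z = x) : False := by
  obtain ⟨i, hi⟩ := (pat_sig7 hy).1 py
  obtain ⟨j, hj⟩ := (pat_sig17 hz).1 pz
  exact (pat_p7_17 (by omega)).1 px ⟨i, j, by rw [mul_add, ← hi, ← hj]; omega⟩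

lemma sum11_17 {y z x : ℕ} (hy : y % 201 = 165) (hz : z % 201 = 163) (py : pat y) (pz : pat z)
    (px : pat x) (e : y + z = x) : False := by
  obtain ⟨i, hi⟩ := (pat_sig11 hy).1 py
  obtain ⟨j, hj⟩ := (pat_sig17 hz).1 pz
  exact (pat_p11_17 (by omega)).1 px ⟨i, j, by rw [mul_add, ← hi, ← hj]; omega⟩

/-- No element above `6893` is a sum of two elements. -/
theorem no_sum {x y z : ℕ} (hx : 6893 < x) (px : pat x) (py : pat y) (pz : pat z) :
    y + z ≠ x := by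
  intro e
  have lx : x % 201 ∈ live := by
    rcases pat_cases px with h | h
    · have := consts_le x h; omega
    · exact h
  have key : ∀ y z : ℕ, y ∈ consts → pat z → y + z = x → False := by
    intro y z cy pz e
    rcases pat_cases pz with cz | lz
    · have := consts_le y cy; have := consts_le z cz; omega
    · have h := const_live y cy (z % 201) lz (by rw [Nat.add_mod_mod, e]; exact lx)
      rcases h with ⟨rfl, h⟩ | ⟨rfl, h⟩ | ⟨rfl, h⟩ | ⟨rfl, h⟩ | ⟨rfl, h⟩ | ⟨rfl, h⟩ | ⟨rfl, h⟩ | ⟨rfl, h⟩ | ⟨rfl, h⟩ | ⟨rfl, h⟩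
      · exact gate3_5_7 h pz hx px e
      · exact gate3_7_17 h pz hx px e
      · exact gate5_3_7 h pz hx px e
      · exact gate5_3_17 h pz hx px e
      · exact gate7_3_11 h pz hx px e
      · exact gate7_11_17 h pz hx px e
      · exact gate11_3_5 h pz hx px e
      · exact gate11_5_17 h pz hx px e
      · exact gate17_3_5 h pz hx px e
      · exact gate17_5_7 h pz hx px e
  rcases pat_cases py with cy | ly
  · exact key y z cy pz e
  rcases pat_cases pz with cz | lz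
  · exact key z y cz py (by omega)
  have h := live_live (y % 201) ly (z % 201) lz (by rw [← Nat.add_mod, e]; exact lx)
  rcases h with ⟨h1, h2⟩ | ⟨h1, h2⟩ | ⟨h1, h2⟩ | ⟨h1, h2⟩ | ⟨h1, h2⟩ | ⟨h1, h2⟩ | ⟨h1, h2⟩ | ⟨h1, h2⟩ | ⟨h1, h2⟩ | ⟨h1, h2⟩ | ⟨h1, h2⟩ | ⟨h1, h2⟩ | ⟨h1, h2⟩ | ⟨h1, h2⟩ | ⟨h1, h2⟩ | ⟨h1, h2⟩
  · exact sum3_5 h1 h2 py pz px e
  · exact sum3_5 h2 h1 pz py px (by omega)
  · exact sum3_7 h1 h2 py pz px e
  · exact sum3_7 h2 h1 pz py px (by omega)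
  · exact sum3_11 h1 h2 py pz px e
  · exact sum3_11 h2 h1 pz py px (by omega)
  · exact sum3_17 h1 h2 py pz px e
  · exact sum3_17 h2 h1 pz py px (by omega)
  · exact sum5_7 h1 h2 py pz px e
  · exact sum5_7 h2 h1 pz py px (by omega)
  · exact sum5_17 h1 h2 py pz px e
  · exact sum5_17 h2 h1 pz py px (by omega)
  · exact sum7_17 h1 h2 py pz px e
  · exact sum7_17 h2 h1 pz py px (by omega)
  · exact sum11_17 h1 h2 py pz px e
  · exact sum11_17 h2 h1 pz py px (by omega)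

/-- Small elements used to cover the remaining residues. -/
def small : List ℕ := [24, 32, 34, 37, 46, 49, 50, 52, 53, 56, 58, 62, 66, 67, 69, 70, 71, 72, 74,
  77, 78, 79, 80, 81, 82, 85, 86, 87, 88, 89, 90, 91, 92, 93, 94, 96, 98, 103, 110, 111, 129, 139,
  145, 148, 166, 177, 59, 132, 134, 135, 142, 143, 562, 958, 1367, 2175, 3379,
  113, 120, 124, 122, 114, 116, 123, 127]

lemma small_p113 : pat 113 := by
  rw [pat_p3_5 (by norm_num)]
  rintro ⟨i, j, h⟩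
  have h1 := Nat.one_le_two_pow (n := i)
  have h2 := Nat.one_le_two_pow (n := j)
  omega

lemma small_p120 : pat 120 := by
  rw [pat_p3_7 (by norm_num)]
  rintro ⟨i, j, h⟩
  have h1 := Nat.one_le_two_pow (n := i)
  have h2 := Nat.one_le_two_pow (n := j)
  omega

lemma small_p124 : pat 124 := by
  rw [pat_p3_11 (by norm_num)]
  rintro ⟨i, j, h⟩
  have h1 := Nat.one_le_two_pow (n := i)
  have h2 := Nat.one_le_two_pow (n := j)
  omega

lemma small_p122 : pat 122 := by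
  rw [pat_p3_17 (by norm_num)]
  rintro ⟨i, j, h⟩
  have h1 := Nat.one_le_two_pow (n := i)
  have h2 := Nat.one_le_two_pow (n := j)
  omega

lemma small_p114 : pat 114 := by
  rw [pat_p5_7 (by norm_num)]
  rintro ⟨i, j, h⟩
  have h1 := Nat.one_le_two_pow (n := i)
  have h2 := Nat.one_le_two_pow (n := j)
  omega

lemma small_p116 : pat 116 := by
  rw [pat_p5_17 (by norm_num)]
  rintro ⟨i, j, h⟩
  have h1 := Nat.one_le_two_pow (n := i)
  have h2 := Nat.one_le_two_pow (n := j)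
  omega

lemma small_p123 : pat 123 := by
  rw [pat_p7_17 (by norm_num)]
  rintro ⟨i, j, h⟩
  have h1 := Nat.one_le_two_pow (n := i)
  have h2 := Nat.one_le_two_pow (n := j)
  omega

lemma small_p127 : pat 127 := by
  rw [pat_p11_17 (by norm_num)]
  rintro ⟨i, j, h⟩
  have h1 := Nat.one_le_two_pow (n := i)
  have h2 := Nat.one_le_two_pow (n := j)
  omega

lemma pat_small : ∀ s ∈ small, pat s ∧ s ≤ 3379 := by
  intro s hs
  simp only [small, List.mem_cons, List.not_mem_nil, or_false] at hs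
  rcases hs with rfl | rfl | rfl | rfl | rfl | rfl | rfl | rfl | rfl | rfl | rfl | rfl | rfl | rfl | rfl | rfl | rfl | rfl | rfl | rfl | rfl | rfl | rfl | rfl | rfl | rfl | rfl | rfl | rfl | rfl | rfl | rfl | rfl | rfl | rfl | rfl | rfl | rfl | rfl | rfl | rfl | rfl | rfl | rfl | rfl | rfl | rfl | rfl | rfl | rfl | rfl | rfl | rfl | rfl | rfl | rfl | rfl | rfl | rfl | rfl | rfl | rfl | rfl | rfl | rfl
  iterate 46 (exact ⟨pat_const (by decide), by norm_num⟩)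
  iterate 6 (exact ⟨pat_of_bulk (by decide), by norm_num⟩)
  · exact ⟨(pat_sig3 (by norm_num)).2 ⟨0, by norm_num⟩, by norm_num⟩
  · exact ⟨(pat_sig5 (by norm_num)).2 ⟨0, by norm_num⟩, by norm_num⟩
  · exact ⟨(pat_sig7 (by norm_num)).2 ⟨0, by norm_num⟩, by norm_num⟩
  · exact ⟨(pat_sig11 (by norm_num)).2 ⟨0, by norm_num⟩, by norm_num⟩
  · exact ⟨(pat_sig17 (by norm_num)).2 ⟨0, by norm_num⟩, by norm_num⟩
  · exact ⟨small_p113, by norm_num⟩
  · exact ⟨small_p120, by norm_num⟩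
  · exact ⟨small_p124, by norm_num⟩
  · exact ⟨small_p122, by norm_num⟩
  · exact ⟨small_p114, by norm_num⟩
  · exact ⟨small_p116, by norm_num⟩
  · exact ⟨small_p123, by norm_num⟩
  · exact ⟨small_p127, by norm_num⟩

lemma cover : ∀ r < 201, r ∉ live → ∃ s ∈ small, (r + 201 * 17 - s) % 201 ∈ bulk := by
  decide +kernel

/-- Every non-element above `6893` is a sum of two distinct elements. -/
theorem ex_sum {x : ℕ} (hx : 6893 < x) (px : ¬ pat x) :
    ∃ y z : ℕ, pat y ∧ pat z ∧ y ≠ z ∧ y + z = x := by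
  by_cases lx : x % 201 ∈ live
  swap
  · obtain ⟨s, hs, hb⟩ := cover (x % 201) (Nat.mod_lt _ (by norm_num)) lx
    obtain ⟨ps, ls⟩ := pat_small s hs
    refine ⟨s, x - s, ps, pat_of_bulk ?_, by omega, by omega⟩
    have : (x - s) % 201 = (x % 201 + 201 * 17 - s) % 201 := by omega
    rw [this]; exact hb
  have lx' : x % 201 ∈ bulk ∨ x % 201 = 160 ∨ x % 201 = 154 ∨ x % 201 = 161 ∨ x % 201 = 165 ∨ x % 201 = 163 ∨
      x % 201 = 113 ∨ x % 201 = 120 ∨ x % 201 = 124 ∨ x % 201 = 122 ∨ x % 201 = 114 ∨ x % 201 = 116 ∨ x % 201 = 123 ∨ x % 201 = 127 := by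
    simp only [live, bulk, List.mem_cons, List.not_mem_nil, or_false] at lx ⊢
    omega
  rcases lx' with h | h | h | h | h | h | h | h | h | h | h | h | h | h
  · exact absurd (pat_of_bulk h) px
  · by_cases h1 : pat (x - 46)
    · exact ⟨46, x - 46, pat_const (by decide), h1, by omega, by omega⟩
    by_cases h2 : pat (x - 37)
    · exact ⟨37, x - 37, pat_const (by decide), h2, by omega, by omega⟩
    exfalso
    rw [pat_p5_7 (by omega), not_not] at h1
    rw [pat_p7_17 (by omega), not_not] at h2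
    obtain ⟨i, j, h1⟩ := h1
    obtain ⟨k, l, h2⟩ := h2
    obtain ⟨n, hn⟩ := dio3 i j k l (by omega)
    exact px ((pat_sig3 h).2 ⟨n, by rw [← hn]; omega⟩)
  · by_cases h1 : pat (x - 34)
    · exact ⟨34, x - 34, pat_const (by decide), h1, by omega, by omega⟩
    by_cases h2 : pat (x - 32)
    · exact ⟨32, x - 32, pat_const (by decide), h2, by omega, by omega⟩
    exfalso
    rw [pat_p3_7 (by omega), not_not] at h1
    rw [pat_p3_17 (by omega), not_not] at h2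
    obtain ⟨i, j, h1⟩ := h1
    obtain ⟨k, l, h2⟩ := h2
    obtain ⟨n, hn⟩ := dio5 i j k l (by omega)
    exact px ((pat_sig5 h).2 ⟨n, by rw [← hn]; omega⟩)
  · by_cases h1 : pat (x - 37)
    · exact ⟨37, x - 37, pat_const (by decide), h1, by omega, by omega⟩
    by_cases h2 : pat (x - 34)
    · exact ⟨34, x - 34, pat_const (by decide), h2, by omega, by omega⟩
    exfalso
    rw [pat_p3_11 (by omega), not_not] at h1
    rw [pat_p11_17 (by omega), not_not] at h2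
    obtain ⟨i, j, h1⟩ := h1
    obtain ⟨k, l, h2⟩ := h2
    obtain ⟨n, hn⟩ := dio7 i j k l (by omega)
    exact px ((pat_sig7 h).2 ⟨n, by rw [← hn]; omega⟩)
  · by_cases h1 : pat (x - 52)
    · exact ⟨52, x - 52, pat_const (by decide), h1, by omega, by omega⟩
    by_cases h2 : pat (x - 49)
    · exact ⟨49, x - 49, pat_const (by decide), h2, by omega, by omega⟩
    exfalso
    rw [pat_p3_5 (by omega), not_not] at h1
    rw [pat_p5_17 (by omega), not_not] at h2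
    obtain ⟨i, j, h1⟩ := h1
    obtain ⟨k, l, h2⟩ := h2
    obtain ⟨n, hn⟩ := dio11 i j k l (by omega)
    exact px ((pat_sig11 h).2 ⟨n, by rw [← hn]; omega⟩)
  · by_cases h1 : pat (x - 50)
    · exact ⟨50, x - 50, pat_const (by decide), h1, by omega, by omega⟩
    by_cases h2 : pat (x - 49)
    · exact ⟨49, x - 49, pat_const (by decide), h2, by omega, by omega⟩
    exfalso
    rw [pat_p3_5 (by omega), not_not] at h1
    rw [pat_p5_7 (by omega), not_not] at h2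
    obtain ⟨i, j, h1⟩ := h1
    obtain ⟨k, l, h2⟩ := h2
    obtain ⟨n, hn⟩ := dio17 i j k l (by omega)
    exact px ((pat_sig17 h).2 ⟨n, by rw [← hn]; omega⟩)
  · rw [pat_p3_5 h, not_not] at px
    obtain ⟨i, j, h1⟩ := px
    have h2 := Nat.one_le_two_pow (n := i)
    have h3 := Nat.one_le_two_pow (n := j)
    refine ⟨201 * (3 * 2 ^ i) - 41, 201 * (5 * 2 ^ j) - 47, ?_, ?_, ?_, ?_⟩
    · exact (pat_sig3 (by omega)).2 ⟨i, by omega⟩
    · exact (pat_sig5 (by omega)).2 ⟨j, by omega⟩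
    · omega
    · omega
  · rw [pat_p3_7 h, not_not] at px
    obtain ⟨i, j, h1⟩ := px
    have h2 := Nat.one_le_two_pow (n := i)
    have h3 := Nat.one_le_two_pow (n := j)
    refine ⟨201 * (3 * 2 ^ i) - 41, 201 * (7 * 2 ^ j) - 40, ?_, ?_, ?_, ?_⟩
    · exact (pat_sig3 (by omega)).2 ⟨i, by omega⟩
    · exact (pat_sig7 (by omega)).2 ⟨j, by omega⟩
    · omega
    · omega
  · rw [pat_p3_11 h, not_not] at px
    obtain ⟨i, j, h1⟩ := px
    have h2 := Nat.one_le_two_pow (n := i)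
    have h3 := Nat.one_le_two_pow (n := j)
    refine ⟨201 * (3 * 2 ^ i) - 41, 201 * (11 * 2 ^ j) - 36, ?_, ?_, ?_, ?_⟩
    · exact (pat_sig3 (by omega)).2 ⟨i, by omega⟩
    · exact (pat_sig11 (by omega)).2 ⟨j, by omega⟩
    · omega
    · omega
  · rw [pat_p3_17 h, not_not] at px
    obtain ⟨i, j, h1⟩ := px
    have h2 := Nat.one_le_two_pow (n := i)
    have h3 := Nat.one_le_two_pow (n := j)
    refine ⟨201 * (3 * 2 ^ i) - 41, 201 * (17 * 2 ^ j) - 38, ?_, ?_, ?_, ?_⟩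
    · exact (pat_sig3 (by omega)).2 ⟨i, by omega⟩
    · exact (pat_sig17 (by omega)).2 ⟨j, by omega⟩
    · omega
    · omega
  · rw [pat_p5_7 h, not_not] at px
    obtain ⟨i, j, h1⟩ := px
    have h2 := Nat.one_le_two_pow (n := i)
    have h3 := Nat.one_le_two_pow (n := j)
    refine ⟨201 * (5 * 2 ^ i) - 47, 201 * (7 * 2 ^ j) - 40, ?_, ?_, ?_, ?_⟩
    · exact (pat_sig5 (by omega)).2 ⟨i, by omega⟩
    · exact (pat_sig7 (by omega)).2 ⟨j, by omega⟩
    · omega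
    · omega
  · rw [pat_p5_17 h, not_not] at px
    obtain ⟨i, j, h1⟩ := px
    have h2 := Nat.one_le_two_pow (n := i)
    have h3 := Nat.one_le_two_pow (n := j)
    refine ⟨201 * (5 * 2 ^ i) - 47, 201 * (17 * 2 ^ j) - 38, ?_, ?_, ?_, ?_⟩
    · exact (pat_sig5 (by omega)).2 ⟨i, by omega⟩
    · exact (pat_sig17 (by omega)).2 ⟨j, by omega⟩
    · omega
    · omega
  · rw [pat_p7_17 h, not_not] at px
    obtain ⟨i, j, h1⟩ := px
    have h2 := Nat.one_le_two_pow (n := i)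
    have h3 := Nat.one_le_two_pow (n := j)
    refine ⟨201 * (7 * 2 ^ i) - 40, 201 * (17 * 2 ^ j) - 38, ?_, ?_, ?_, ?_⟩
    · exact (pat_sig7 (by omega)).2 ⟨i, by omega⟩
    · exact (pat_sig17 (by omega)).2 ⟨j, by omega⟩
    · omega
    · omega
  · rw [pat_p11_17 h, not_not] at px
    obtain ⟨i, j, h1⟩ := px
    have h2 := Nat.one_le_two_pow (n := i)
    have h3 := Nat.one_le_two_pow (n := j)
    refine ⟨201 * (11 * 2 ^ i) - 36, 201 * (17 * 2 ^ j) - 38, ?_, ?_, ?_, ?_⟩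
    · exact (pat_sig11 (by omega)).2 ⟨i, by omega⟩
    · exact (pat_sig17 (by omega)).2 ⟨j, by omega⟩
    · omega
    · omega

end Pool.Agent.H90.Dickson
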