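import Mathlib
import Pool.Agent.H90.Rule

set_option autoImplicit false

namespace Pool.Agent.H90.Dickson

open Classical in
/-- The increasing enumeration of the explicit set. -/
noncomputable def enum (n : ℕ) : ℕ := Nat.nth pat n

open Classical in
/-- The number of elements up to `6893`. -/
noncomputable def seedLen : ℕ := Nat.count pat 6894

lemma pat_T : pat 6893 := pat_of_bulk (by decide)

lemma pat_infinite : {x : ℕ | pat x}.Infinite := by
  apply Set.infinite_of_injective_forall_mem (f := fun n : ℕ => 59 + 201 * n)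
  · intro a b h
    simp only at h
    omega
  · intro n
    apply pat_of_bulk
    have : (59 + 201 * n) % 201 = 59 := by omega
    rw [this]; decide

lemma enum_strictMono : StrictMono enum := Nat.nth_strictMono pat_infinite

lemma pat_enum (n : ℕ) : pat (enum n) := Nat.nth_mem_of_infinite pat_infinite n

lemma exists_enum {x : ℕ} (h : pat x) : ∃ n, enum n = x := by
  classical
  exact ⟨Nat.count pat x, by unfold enum; convert Nat.nth_count h⟩

lemma seedLen_pos : 1 ≤ seedLen := by
  classical
  unfold seedLen
  have h : Nat.count pat 6894 = Nat.count pat 6893 + 1 := by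
    rw [Nat.count_succ, if_pos pat_T]
  omega

lemma enum_seedLen : enum (seedLen - 1) = 6893 := by
  classical
  have h : seedLen = Nat.count pat 6893 + 1 := by
    unfold seedLen
    rw [Nat.count_succ, if_pos pat_T]
  rw [h]
  simp only [Nat.add_sub_cancel]
  unfold enum
  exact Nat.nth_count pat_T

lemma enum_gt {n : ℕ} (hn : seedLen ≤ n) : 6893 < enum n := by
  have h := enum_seedLen
  have h1 := seedLen_pos
  have : enum (seedLen - 1) < enum n := enum_strictMono (by omega)
  omega

lemma enum_pos (n : ℕ) : 0 < enum n := pat_pos (pat_enum n)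

/-- Elements below `enum n` are `enum i` with `i < n`. -/
lemma lt_enum {n x : ℕ} (px : pat x) (h : x < enum n) : ∃ i, i < n ∧ enum i = x := by
  obtain ⟨i, rfl⟩ := exists_enum px
  exact ⟨i, enum_strictMono.lt_iff_lt.1 h, rfl⟩

/-- Every number strictly between two consecutive terms beyond the seed is a sum of two distinct
earlier terms. -/
lemma gap_sum {n x : ℕ} (hn : seedLen ≤ n) (h1 : enum (n - 1) < x) (h2 : x < enum n) :
    ∃ i j, i < j ∧ j < n ∧ x = enum i + enum j := by
  have hpos := seedLen_pos
  have hx : 6893 < x := by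
    have h := enum_seedLen
    have : enum (seedLen - 1) ≤ enum (n - 1) := enum_strictMono.monotone (by omega)
    omega
  have px : ¬ pat x := by
    intro px
    obtain ⟨i, hi, rfl⟩ := lt_enum px h2
    have : enum i ≤ enum (n - 1) := enum_strictMono.monotone (by omega)
    omega
  obtain ⟨y, z, py, pz, hne, e⟩ := ex_sum hx px
  have yp := pat_pos py
  have zp := pat_pos pz
  obtain ⟨i, hi, rfl⟩ := lt_enum py (n := n) (by omega)
  obtain ⟨j, hj, rfl⟩ := lt_enum pz (n := n) (by omega)
  rcases lt_trichotomy i j with h | h | h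
  · exact ⟨i, j, h, hj, e.symm⟩
  · exact absurd (by rw [h]) hne
  · exact ⟨j, i, h, hi, by omega⟩

/-- Terms beyond the seed are not sums of two terms. -/
lemma enum_no_sum {n : ℕ} (hn : seedLen ≤ n) (i j : ℕ) : enum n ≠ enum i + enum j :=
  fun h => no_sum (enum_gt hn) (pat_enum n) (pat_enum i) (pat_enum j) h.symm

/-- The difference sequence is not eventually periodic. -/
theorem not_periodic : ¬ ∃ N p : ℕ, 1 ≤ p ∧ ∀ n, N ≤ n →
    ((enum (n + p + 1) : ℤ) - (enum (n + p) : ℤ)) = ((enum (n + 1) : ℤ) - (enum n : ℤ)) := by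
  rintro ⟨N, p, hp, h⟩
  obtain ⟨D, hD⟩ : ∃ D, enum (N + p) = enum N + D := by
    have : enum N ≤ enum (N + p) := enum_strictMono.monotone (by omega)
    exact ⟨enum (N + p) - enum N, by omega⟩
  have hDpos : 0 < D := by
    have : enum N < enum (N + p) := enum_strictMono (by omega)
    omega
  have key : ∀ t, enum (N + t + p) = enum (N + t) + D := by
    intro t
    induction t with
    | zero => simpa using hD
    | succ t ih =>
      have h1 := h (N + t) (by omega)
      have e1 : N + (t + 1) + p = N + t + p + 1 := by ring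
      have e2 : N + (t + 1) = N + t + 1 := by ring
      rw [e1, e2]
      omega
  have shift1 : ∀ x, enum N ≤ x → pat x → pat (x + D) := by
    intro x hx px
    obtain ⟨n, rfl⟩ := exists_enum px
    have hn : N ≤ n := enum_strictMono.le_iff_le.1 hx
    obtain ⟨t, rfl⟩ := Nat.exists_eq_add_of_le hn
    rw [← key t]
    exact pat_enum _
  have shift : ∀ s x, enum N ≤ x → pat x → pat (x + s * D) := by
    intro s
    induction s with
    | zero => intro x _ px; simpa using px
    | succ s ih =>
      intro x hx px
      have := ih (x + D) (by omega) (shift1 x hx px)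
      have e : x + (s + 1) * D = x + D + s * D := by ring
      rw [e]; exact this
  -- choose a large element of the sparse class
  obtain ⟨k, hk⟩ : ∃ k, enum N + D + 41 < 2 ^ k := ⟨_, Nat.lt_two_pow_self⟩
  have h3 : (201 * (3 * 2 ^ k) - 41) % 201 = 160 := by omega
  have px : pat (201 * (3 * 2 ^ k) - 41) := (pat_sig3 h3).2 ⟨k, by omega⟩
  have p2 := shift 201 _ (by omega) px
  have h4 : (201 * (3 * 2 ^ k) - 41 + 201 * D) % 201 = 160 := by omega
  obtain ⟨l, hl⟩ := (pat_sig3 h4).1 p2
  have h5 : 3 * 2 ^ k + D = 3 * 2 ^ l := by omega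
  have h6 : 2 ^ k < 2 ^ l := by omega
  have h7 : 2 ^ l < 2 ^ (k + 1) := by rw [pow_succ]; omega
  have h8 := (Nat.pow_lt_pow_iff_right (by norm_num : 1 < 2)).1 h6
  have h9 := (Nat.pow_lt_pow_iff_right (by norm_num : 1 < 2)).1 h7
  omega

end Pool.Agent.H90.Dickson
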