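import Pool.Agent.H37.LES.Defs

/-! The residual of `V + v` (module L6 of MP_544ca6_an, first part). -/

open MeasureTheory Set Filter Topology
open scoped ContDiff ENNReal
open H36.MHD

noncomputable section

namespace H37.LES

variable (P : Prob)

lemma vol_lt_top (P : Prob) : (volume : Measure V3) P.Ω < ⊤ := P.hb.measure_lt_top

instance finite_mu (P : Prob) : IsFiniteMeasure P.μ := by
  refine ⟨?_⟩
  rw [Measure.restrict_apply_univ]
  unfold cyl
  rw [Measure.volume_eq_prod, Measure.prod_prod]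
  exact ENNReal.mul_lt_top (by simp) (vol_lt_top P)

lemma mu_eq (P : Prob) : P.μ = (volume.restrict (Ioo 0 P.T)).prod (volume.restrict P.Ω) := by
  rw [Measure.prod_restrict, ← Measure.volume_eq_prod]; rfl

lemma memLp_snd {E : Type*} [NormedAddCommGroup E] {g : V3 → E}
    (hg : MemLp g 2 (volume.restrict P.Ω)) : MemLp (fun z : X => g z.2) 2 P.μ := by
  rw [mu_eq]
  exact hg.comp_snd (volume.restrict (Ioo 0 P.T))

lemma memLp_w0 (j : Fin 3) : MemLp (fun z : X => P.w0 z.2 j) 2 P.μ := by
  have h := memLp_snd P P.hw0.1.1.1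
  exact (ContinuousLinearMap.proj (R := ℝ) (φ := fun _ : Fin 3 => ℝ) j).comp_memLp' h

lemma memLp_G0 (i j : Fin 3) : MemLp (fun z : X => P.G0 z.2 i j) 2 P.μ := by
  have h := memLp_snd P P.hw0.1.1.2.1
  have h1 := (ContinuousLinearMap.proj (R := ℝ) (φ := fun _ : Fin 3 => (Fin 3 → ℝ)) i).comp_memLp' h
  exact (ContinuousLinearMap.proj (R := ℝ) (φ := fun _ : Fin 3 => ℝ) j).comp_memLp' h1

lemma cs_bound {g : X → ℝ} (hg : Continuous g) (hc : HasCompactSupport g) :
    ∃ C, 0 ≤ C ∧ ∀ z, |g z| ≤ C := by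
  obtain ⟨C, hC⟩ := hc.exists_bound_of_continuous hg
  exact ⟨max C 0, le_max_right _ _, fun z => (hC z).trans (le_max_left _ _)⟩

lemma cs_memLp {g : X → ℝ} (hg : Continuous g) (hc : HasCompactSupport g) :
    MemLp g 2 P.μ :=
  (hg.memLp_of_hasCompactSupport hc).restrict _

lemma memLp_W {V : Fin 3 → X → ℝ} (hV : P.IsPert V) (j : Fin 3) : MemLp (P.W V j) 2 P.μ :=
  (memLp_w0 P j).add (cs_memLp P (hV.smooth j).continuous (hV.compact j))

lemma cs_dx {g : X → ℝ} (hc : HasCompactSupport g) (j : Fin 3) : HasCompactSupport (dx j g) :=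
  hc.mono' ((subset_tsupport _).trans (tsupport_dx_subset g j))

lemma cs_dt {g : X → ℝ} (hc : HasCompactSupport g) : HasCompactSupport (dt g) :=
  hc.mono' ((subset_tsupport _).trans (tsupport_dt_subset g))

lemma memLp_G {V : Fin 3 → X → ℝ} (hV : P.IsPert V) (i j : Fin 3) : MemLp (P.G V i j) 2 P.μ :=
  (memLp_G0 P i j).add (cs_memLp P (smooth_dx (hV.smooth i) j).continuous
    (cs_dx (hV.compact i) j))

lemma int_mul_cs {F g : X → ℝ} (hF : Integrable F P.μ) (hg : Continuous g)
    (hc : HasCompactSupport g) : Integrable (fun z => F z * g z) P.μ := by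
  obtain ⟨C, -, hC⟩ := cs_bound hg hc
  exact hF.mul_bdd (c := C) hg.aestronglyMeasurable (Eventually.of_forall fun z => hC z)

lemma int_cs {g : X → ℝ} (hg : Continuous g)
    (hc : HasCompactSupport g) : Integrable g P.μ :=
  (hg.integrable_of_hasCompactSupport hc).restrict

lemma memLp_int {F : X → ℝ} (hF : MemLp F 2 P.μ) : Integrable F P.μ :=
  hF.integrable (by norm_num)

lemma memLp_mul_int {F G : X → ℝ} (hF : MemLp F 2 P.μ) (hG : MemLp G 2 P.μ) :
    Integrable (fun z => F z * G z) P.μ := hF.integrable_mul hG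

/-- Vector part of the change of the residual. -/
def Prob.hv (V v : Fin 3 → X → ℝ) (i : Fin 3) (z : X) : ℝ :=
  dt (v i) z + ∑ j, (P.W V j z * dx j (v i) z + v j z * P.G V i j z + v j z * dx j (v i) z)

/-- Matrix part of the change of the residual. -/
def Prob.rv (V v : Fin 3 → X → ℝ) (i j : Fin 3) (z : X) : ℝ :=
  P.nu * (dx j (v i) z + dx i (v j) z)
    - P.al * ∑ m, (P.G V i m z * dx m (v j) z + dx m (v i) z * P.G V j m z
        + dx m (v i) z * dx m (v j) z)

lemma hv_int {V v : Fin 3 → X → ℝ} (hV : P.IsPert V) (hv : P.IsPert v) (i : Fin 3) :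
    Integrable (P.hv V v i) P.μ := by
  have hd : ∀ i j, Continuous (dx j (v i)) := fun i j => (smooth_dx (hv.smooth i) j).continuous
  have hdc : ∀ i j, HasCompactSupport (dx j (v i)) := fun i j => cs_dx (hv.compact i) j
  refine (int_cs P (smooth_dt (hv.smooth i)).continuous (cs_dt (hv.compact i))).add ?_
  refine integrable_finsetSum _ fun j _ => ?_
  refine ((int_mul_cs P (memLp_int P (memLp_W P hV j)) (hd i j) (hdc i j)).add ?_).add ?_
  · have := int_mul_cs P (memLp_int P (memLp_G P hV i j)) (hv.smooth j).continuous (hv.compact j)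
    simpa only [mul_comm] using this
  · exact int_mul_cs P (int_cs P (hv.smooth j).continuous (hv.compact j)) (hd i j) (hdc i j)

lemma rv_int {V v : Fin 3 → X → ℝ} (hV : P.IsPert V) (hv : P.IsPert v) (i j : Fin 3) :
    Integrable (P.rv V v i j) P.μ := by
  have hd : ∀ i j, Continuous (dx j (v i)) := fun i j => (smooth_dx (hv.smooth i) j).continuous
  have hdc : ∀ i j, HasCompactSupport (dx j (v i)) := fun i j => cs_dx (hv.compact i) j
  refine (((int_cs P (hd i j) (hdc i j)).add (int_cs P (hd j i) (hdc j i))).const_mul _).sub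
    (Integrable.const_mul ?_ _)
  refine integrable_finsetSum _ fun m _ => ?_
  refine ((int_mul_cs P (memLp_int P (memLp_G P hV i m)) (hd j m) (hdc j m)).add ?_).add ?_
  · have := int_mul_cs P (memLp_int P (memLp_G P hV j m)) (hd i m) (hdc i m)
    simpa only [mul_comm] using this
  · exact int_mul_cs P (int_cs P (hd i m) (hdc i m)) (hd j m) (hdc j m)

/-- integrand of the residual -/
def Prob.Fint (V φ : Fin 3 → X → ℝ) (z : X) : ℝ :=
  (-∑ i, P.W V i z * dt (φ i) z)
      + (∑ i, ∑ j, P.W V j z * P.G V i j z * φ i z)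
      + P.nu * (∑ i, ∑ j, P.G V i j z * dx j (φ i) z)
      - P.al * (∑ i, ∑ j, (∑ l, P.G V i l z * P.G V j l z) * dx j (φ i) z)
      - ∑ i, P.f z i * φ i z

lemma Fint_int {V φ : Fin 3 → X → ℝ} (hV : P.IsPert V) (hφ : P.IsTest φ) :
    Integrable (P.Fint V φ) P.μ := by
  have hd : ∀ i j, Continuous (dx j (φ i)) := fun i j => (smooth_dx (hφ.smooth i) j).continuous
  have hdc : ∀ i j, HasCompactSupport (dx j (φ i)) := fun i j => cs_dx (hφ.compact i) j
  unfold Prob.Fint
  refine Integrable.sub (Integrable.sub (Integrable.add (Integrable.add ?_ ?_) ?_) ?_) ?_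
  · refine Integrable.neg ?_
    exact integrable_finsetSum _ fun i _ => int_mul_cs P (memLp_int P (memLp_W P hV i))
      (smooth_dt (hφ.smooth i)).continuous (cs_dt (hφ.compact i))
  · exact integrable_finsetSum _ fun i _ => integrable_finsetSum _ fun j _ =>
      int_mul_cs P (memLp_mul_int P (memLp_W P hV j) (memLp_G P hV i j))
        (hφ.smooth i).continuous (hφ.compact i)
  · refine Integrable.const_mul ?_ _
    exact integrable_finsetSum _ fun i _ => integrable_finsetSum _ fun j _ =>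
      int_mul_cs P (memLp_int P (memLp_G P hV i j)) (hd i j) (hdc i j)
  · refine Integrable.const_mul ?_ _
    exact integrable_finsetSum _ fun i _ => integrable_finsetSum _ fun j _ =>
      int_mul_cs P (integrable_finsetSum _ fun l _ =>
        memLp_mul_int P (memLp_G P hV i l) (memLp_G P hV j l)) (hd i j) (hdc i j)
  · refine integrable_finsetSum _ fun i _ => int_mul_cs P ?_ (hφ.smooth i).continuous
      (hφ.compact i)
    exact (ContinuousLinearMap.proj (R := ℝ) (φ := fun _ : Fin 3 => ℝ) i).integrable_comp P.hf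

lemma dx_add' {g h : X → ℝ} (hg : ContDiff ℝ ∞ g) (hh : ContDiff ℝ ∞ h) (j : Fin 3) (z : X) :
    dx j (fun y => g y + h y) z = dx j g z + dx j h z := by
  unfold dx
  rw [fderiv_fun_add (smooth_diff hg z) (smooth_diff hh z)]
  simp

lemma dx_congr0 {g : X → ℝ} (hg : ∀ z, g z = 0) (j : Fin 3) (z : X) : dx j g z = 0 := by
  have : g = fun _ => 0 := funext hg
  rw [this]; simp [dx]

/-- the total derivative part -/
def Prob.Eint (v φ : Fin 3 → X → ℝ) (z : X) : ℝ :=
  (∑ i, dt (fun y => v i y * φ i y) z) + P.nu * ∑ i, ∑ j, dx j (fun y => dx i (v j) y * φ i y) z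

lemma Fint_add {V v φ : Fin 3 → X → ℝ} (hV : P.IsPert V) (hv : P.IsPert v) (hφ : P.IsTest φ)
    (z : X) : P.Fint (fun i z => V i z + v i z) φ z
      = P.Fint V φ z + (∑ i, P.hv V v i z * φ i z) + (∑ i, ∑ j, P.rv V v i j z * dx j (φ i) z)
        - P.Eint v φ z := by
  have hW : ∀ i, P.W (fun i z => V i z + v i z) i z = P.W V i z + v i z := by
    intro i; simp only [Prob.W]; ring
  have hG : ∀ i j, P.G (fun i z => V i z + v i z) i j z = P.G V i j z + dx j (v i) z := by
    intro i j
    simp only [Prob.G]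
    rw [dx_add' (hV.smooth i) (hv.smooth i)]; ring
  have hE1 : ∀ i, dt (fun y => v i y * φ i y) z = v i z * dt (φ i) z + φ i z * dt (v i) z :=
    fun i => dt_mul (hv.smooth i) (hφ.smooth i) z
  have hE2 : ∀ i j, dx j (fun y => dx i (v j) y * φ i y) z
      = dx i (v j) z * dx j (φ i) z + φ i z * dx i (dx j (v j)) z := by
    intro i j
    rw [dx_mul (smooth_dx (hv.smooth j) i) (hφ.smooth i), dx_comm (hv.smooth j) j i]
  have hdiv : ∀ i, ∑ j, dx i (dx j (v j)) z = 0 := by
    intro i
    rw [← dx_sum (g := fun j => dx j (v j)) (fun j => smooth_dx (hv.smooth j) j)]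
    exact dx_congr0 hv.div i z
  have h0 := hdiv 0
  have h1 := hdiv 1
  have h2 := hdiv 2
  simp only [Prob.Fint, Prob.hv, Prob.rv, Prob.Eint, hW, hG, hE1, hE2]
  simp only [Fin.sum_univ_three] at h0 h1 h2 ⊢
  linear_combination (P.nu * φ 0 z) * h0 + (P.nu * φ 1 z) * h1 + (P.nu * φ 2 z) * h2

lemma Eint_int {v φ : Fin 3 → X → ℝ} (hv : P.IsPert v) (hφ : P.IsTest φ) :
    Integrable (P.Eint v φ) P.μ ∧ ∫ z, P.Eint v φ z ∂P.μ = 0 := by
  have h1 : ∀ i, Integrable (dt (fun y => v i y * φ i y)) P.μ := fun i =>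
    int_cs P (smooth_dt ((hv.smooth i).mul (hφ.smooth i))).continuous
      (cs_dt ((hv.compact i).mul_right))
  have h2 : ∀ i j, Integrable (dx j (fun y => dx i (v j) y * φ i y)) P.μ := fun i j =>
    int_cs P (smooth_dx ((smooth_dx (hv.smooth j) i).mul (hφ.smooth i)) j).continuous
      (cs_dx ((cs_dx (hv.compact j) i).mul_right) j)
  have h1' : ∀ i, ∫ z, dt (fun y => v i y * φ i y) z ∂P.μ = 0 := by
    intro i
    have hs : tsupport (fun y => v i y * φ i y) ⊆ cyl P.Ω P.T :=
      (tsupport_mul_subset_left).trans (hv.supp i)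
    have := int_dt P.hT ((hv.smooth i).mul (hφ.smooth i)) ((hv.compact i).mul_right)
      (hs.trans (prod_mono (fun t ht => ht.2) le_rfl))
    have h0 : ∀ x : V3, v i (0, x) * φ i (0, x) = 0 := by
      intro x
      rw [eq_zero_of_notMem (hv.supp i) (fun h => lt_irrefl (0:ℝ) h.1.1), zero_mul]
    simp only [h0, integral_zero, neg_zero] at this
    exact this
  have h2' : ∀ i j, ∫ z, dx j (fun y => dx i (v j) y * φ i y) z ∂P.μ = 0 := by
    intro i j
    refine int_dx ((smooth_dx (hv.smooth j) i).mul (hφ.smooth i))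
      ((cs_dx (hv.compact j) i).mul_right) ?_ j
    refine (tsupport_mul_subset_left).trans ((tsupport_dx_subset _ _).trans ((hv.supp j).trans ?_))
    exact prod_mono (subset_univ _) le_rfl
  refine ⟨(integrable_finsetSum _ fun i _ => h1 i).add (Integrable.const_mul
    (integrable_finsetSum _ fun i _ => integrable_finsetSum _ fun j _ => h2 i j) _), ?_⟩
  unfold Prob.Eint
  rw [integral_add (integrable_finsetSum _ fun i _ => h1 i) (Integrable.const_mul
    (integrable_finsetSum _ fun i _ => integrable_finsetSum _ fun j _ => h2 i j) _),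
    integral_finsetSum _ (fun i _ => h1 i), integral_const_mul, integral_finsetSum _
    (fun i _ => integrable_finsetSum _ fun j _ => h2 i j)]
  have : ∀ i, ∫ z, ∑ j, dx j (fun y => dx i (v j) y * φ i y) z ∂P.μ = 0 := by
    intro i
    rw [integral_finsetSum _ (fun j _ => h2 i j)]
    simp [h2']
  simp [this, h1']

theorem res_add {V v φ : Fin 3 → X → ℝ} (hV : P.IsPert V) (hv : P.IsPert v) (hφ : P.IsTest φ) :
    P.Res (fun i z => V i z + v i z) φ
      = P.Res V φ + (∫ z, ∑ i, P.hv V v i z * φ i z ∂P.μ) + P.Bd (P.rv V v) φ := by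
  have hd : ∀ i j, Continuous (dx j (φ i)) := fun i j => (smooth_dx (hφ.smooth i) j).continuous
  have hdc : ∀ i j, HasCompactSupport (dx j (φ i)) := fun i j => cs_dx (hφ.compact i) j
  have i1 : Integrable (fun z => ∑ i, P.hv V v i z * φ i z) P.μ :=
    integrable_finsetSum _ fun i _ => int_mul_cs P (hv_int P hV hv i) (hφ.smooth i).continuous
      (hφ.compact i)
  have i2 : Integrable (fun z => ∑ i, ∑ j, P.rv V v i j z * dx j (φ i) z) P.μ :=
    integrable_finsetSum _ fun i _ => integrable_finsetSum _ fun j _ =>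
      int_mul_cs P (rv_int P hV hv i j) (hd i j) (hdc i j)
  obtain ⟨i3, e3⟩ := Eint_int P hv hφ
  have i0 := Fint_int P hV hφ
  have key : ∫ z, P.Fint (fun i z => V i z + v i z) φ z ∂P.μ
      = ∫ z, P.Fint V φ z ∂P.μ + (∫ z, ∑ i, P.hv V v i z * φ i z ∂P.μ)
        + P.Bd (P.rv V v) φ := by
    have j1 : Integrable (fun z => P.Fint V φ z + (∑ i, P.hv V v i z * φ i z)) P.μ := i0.add i1
    have j2 : Integrable (fun z => P.Fint V φ z + (∑ i, P.hv V v i z * φ i z)
      + (∑ i, ∑ j, P.rv V v i j z * dx j (φ i) z)) P.μ := j1.add i2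
    rw [integral_congr_ae (Eventually.of_forall (Fint_add P hV hv hφ)),
      integral_sub j2 i3, integral_add j1 i2, integral_add i0 i1, e3]
    simp [Prob.Bd]
  have r1 : ∀ U : Fin 3 → X → ℝ, P.Res U φ = ∫ z, P.Fint U φ z ∂P.μ
      - ∫ x in P.Ω, ∑ i, P.w0 x i * φ i (0, x) := fun U => rfl
  rw [r1, r1, key]; ring

end H37.LES
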